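import Pool.Agent.P.MP_3285df_ag.Theta

/-! The degenerate linear system pulled back to the product of two copies of the Tate curve. -/

namespace Pool.Agent.P.MP_3285df_ag

open Polynomial Finset

set_option linter.dupNamespace false

section alg

variable {R : Type*} [CommRing R]

lemma coeff_dvd (p : R) (m : ℕ) (P : R[X]) (h : P ∈ Ideal.span {C p, X} ^ m) (l : ℕ) :
    p ^ (m - l) ∣ P.coeff l := by
  induction m generalizing P l with
  | zero => simp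
  | succ m ih =>
    have h1 := pow_span_le (C p) X m h
    rw [Submodule.mem_sup] at h1
    obtain ⟨u, hu, v, hv, rfl⟩ := h1
    rw [Ideal.mem_span_singleton] at hu
    obtain ⟨c, rfl⟩ := hu
    rw [Ideal.mem_span_singleton_mul] at hv
    obtain ⟨G, hG, rfl⟩ := hv
    rw [coeff_add, ← C_pow, coeff_C_mul]
    refine dvd_add ((pow_dvd_pow p (Nat.sub_le _ _)).mul_right _) ?_
    rcases l with _ | l
    · simp
    · rw [coeff_X_mul, Nat.succ_sub_succ]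
      exact ih G hG l

lemma coeff_dvd0 (p : R) (m : ℕ) (P : R[X]) (h : P ∈ Ideal.span {C p, X - C 0} ^ m) (l : ℕ) :
    p ^ (m - l) ∣ P.coeff l := coeff_dvd p m P (by simpa using h) l

lemma taylor_mem (p : R) (m : ℕ) (P : R[X]) (h : P ∈ Ideal.span {C p, X - C 1} ^ m) :
    taylor 1 P ∈ Ideal.span {C p, X} ^ m := by
  have := Ideal.mem_map_of_mem (taylorAlgHom (1 : R)) h
  rw [Ideal.map_pow, Ideal.map_span, Set.image_pair] at this
  simpa using this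

lemma hom_taylor {S : Type*} [CommRing S] (φ : R →+* S) (a : ℕ) (P : R[X]) (hP : P.natDegree ≤ a)
    (N δ : S) : ∑ l ∈ range (a + 1), φ (P.coeff l) * N ^ l * δ ^ (a - l) =
      ∑ l ∈ range (a + 1), φ ((taylor 1 P).coeff l) * (N - δ) ^ l * δ ^ (a - l) := by
  have h1 : ∀ l, (taylor 1 P).coeff l = ∑ i ∈ range (a + 1), (i.choose l : R) * P.coeff i := by
    intro l
    conv_lhs => rw [P.as_sum_range' (a + 1) (Nat.lt_succ_of_le hP)]
    rw [map_sum, finsetSum_coeff]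
    refine sum_congr rfl fun i _ => ?_
    rw [taylor_coeff, hasseDeriv_monomial]
    simp
  simp only [h1, map_sum, sum_mul]
  rw [sum_comm]
  refine sum_congr rfl fun i hi => ?_
  have hi' : i ≤ a := Nat.lt_succ_iff.1 (mem_range.1 hi)
  have h2 : N ^ i = ∑ l ∈ range (a + 1), (N - δ) ^ l * δ ^ (i - l) * (i.choose l : S) := by
    have := add_pow (N - δ) δ i
    rw [sub_add_cancel] at this
    rw [this]
    apply sum_subset (range_mono (by omega))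
    intro l _ hl
    rw [Nat.choose_eq_zero_of_lt (by simpa using hl)]
    simp
  rw [h2, mul_sum, sum_mul]
  refine sum_congr rfl fun l _ => ?_
  by_cases hl : l ≤ i
  · have : a - l = (i - l) + (a - i) := by omega
    rw [this, pow_add, map_mul, map_natCast]; ring
  · rw [Nat.choose_eq_zero_of_lt (by omega)]; simp

end alg

variable {K : Type*} [NormedField K] [IsUltrametricDist K] [CompleteSpace K]

/-- the multiplicities -/
def mu (n : ℕ) (k : Fin 10) : ℕ := if k = 0 then 36 * n else 35 * n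

variable (K) in
/-- a hypothetical nonzero section of the degenerate system -/
structure Cfg where
  q : Kˣ
  hq : ‖(q : K)‖ < 1
  T : Th q
  u : Fin 10 → Kˣ
  hu1 : ∀ k, ‖(u k : K)‖ < 1
  hinj : Function.Injective fun k => ‖(u k : K)‖
  hκ : ‖(q : K)‖ < ‖((∏ k, u k : Kˣ) : K)‖ ^ 2
  γ : O1 K
  hγ : ∀ k, γ.1 (u k) ≠ 0
  n : ℕ
  P : (O1 K)[X]
  hP0 : P ≠ 0
  f : ℕ → O1 K
  hP : ∀ l, P.coeff l = γ ^ l * f l
  hf : ∀ l (x : Kˣ), (f l).1 (q * x) * (-(x : K)⁻¹ ^ 3) ^ (3 * l)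
    = (-(x : K)⁻¹ ^ 3) ^ (111 * n) * (f l).1 x
  hm : ∀ k, P ∈ Ideal.span {C (pt (u k)), X - C (if k = 0 then 1 else 0)} ^ mu n k

namespace Cfg

variable (c : Cfg K)

/-- product of all ten points -/
def κ : Kˣ := ∏ k, c.u k
/-- product of the nine points -/
def π : Kˣ := ∏ k ∈ univ.erase 0, c.u k
/-- degree in the fibre direction -/
def a : ℕ := c.P.natDegree
/-- the section vanishing at the nine points -/
noncomputable def Θ : O1 K := ∏ k ∈ univ.erase 0, dil1 (c.u k)⁻¹ c.T.θ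
/-- normalising constant -/
noncomputable def lam : K := c.γ.1 (c.u 0) / (c.π * c.Θ.1 (c.u 0))
/-- pull back along the addition map -/
def U : O1 K →ₐ[K] O2 K := inc c.κ 1 1
/-- numerator of the fibre coordinate -/
noncomputable def N : O2 K :=
  algebraMap K _ c.lam * inc c.π 1 0 c.T.θ * inc c.π 0 1 c.T.θ * c.U c.Θ
/-- denominator of the fibre coordinate -/
def D : O2 K := inc 1 1 0 c.T.θ * inc 1 0 1 c.T.θ
/-- the section on the product -/
noncomputable def Φ : O2 K := ∑ l ∈ range (c.a + 1), c.U (c.f l) * c.N ^ l * c.D ^ (c.a - l)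
/-- slope of the curve through the i-th point -/
def Y (i : Fin 10) : Kˣ := c.u i * c.κ⁻¹
/-- equation of the fibre through the k-th point -/
noncomputable def E (k : Fin 10) : O2 K := c.U (pt (c.u k))

omit [CompleteSpace K] in
lemma κ_eq : c.κ = c.u 0 * c.π := (mul_prod_erase _ _ (mem_univ 0)).symm

omit [CompleteSpace K] in
lemma κ_lt (i : Fin 10) : ‖(c.κ : K)‖ < ‖(c.u i : K)‖ := by
  have h1 : c.κ = c.u i * ∏ k ∈ univ.erase i, c.u k := (mul_prod_erase _ _ (mem_univ i)).symm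
  have h2 : ∏ k ∈ univ.erase i, ‖(c.u k : K)‖ < ∏ k ∈ univ.erase i, (1 : ℝ) := by
    apply prod_lt_prod_of_nonempty (fun k _ => upos _) (fun k _ => c.hu1 k)
    rw [← card_pos, card_erase_of_mem (mem_univ i)]; simp
  rw [prod_const_one] at h2
  rw [h1, Units.val_mul, norm_mul, Units.coe_prod, norm_prod]
  exact mul_lt_of_lt_one_right (upos _) h2

omit [CompleteSpace K] in
lemma κ_lt_one : ‖(c.κ : K)‖ < 1 := (c.κ_lt 0).trans (c.hu1 0)

omit [CompleteSpace K] in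
lemma q_lt : ‖(c.q : K)‖ < ‖(c.κ : K)‖ ^ 2 := c.hκ

omit [CompleteSpace K] in
lemma π_bd : ‖(c.κ : K)‖ < ‖(c.π : K)‖ ∧ ‖(c.π : K)‖ < 1 := by
  have h1 := c.κ_lt 0
  rw [κ_eq, Units.val_mul, norm_mul] at h1 ⊢
  exact ⟨mul_lt_of_lt_one_left (upos _) (c.hu1 0), by
    have := upos (c.u 0); nlinarith⟩

omit [CompleteSpace K] in
lemma θ_ne (z : Kˣ) (h1 : ‖(c.κ : K)‖ ^ 2 ≤ ‖(z : K)‖) (h2 : ‖(z : K)‖ < 1) : c.T.θ.1 z ≠ 0 :=
  c.T.ne' z (c.q_lt.trans_le h1) (by have := c.hq; have := upos z; nlinarith) h2.ne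

omit [CompleteSpace K] in
lemma Θ_apply (x : Kˣ) : c.Θ.1 x = ∏ k ∈ univ.erase 0, c.T.θ.1 ((c.u k)⁻¹ * x) := by
  have : c.Θ.1 x = ev x c.Θ := rfl
  rw [this, Θ, map_prod]; rfl

omit [CompleteSpace K] in
lemma Θ_shift (x : Kˣ) : c.Θ.1 (c.q * x) = -(c.π : K) * (x : K)⁻¹ ^ 9 * c.Θ.1 x := by
  simp only [Θ_apply]
  have : ∀ k, c.T.θ.1 ((c.u k)⁻¹ * (c.q * x))
      = (-(x : K)⁻¹) * (c.u k : K) * c.T.θ.1 ((c.u k)⁻¹ * x) := by
    intro k
    rw [mul_left_comm, c.T.shift]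
    simp
  simp only [this, prod_mul_distrib, prod_const, card_erase_of_mem (mem_univ (0 : Fin 10)), π,
    Units.coe_prod]
  simp only [card_univ, Fintype.card_fin]
  ring

omit [CompleteSpace K] in
lemma Θ_u0 : c.Θ.1 (c.u 0) ≠ 0 := by
  rw [Θ_apply, prod_ne_zero_iff]
  intro k hk
  have h0 := c.κ_lt 0
  have hk' := c.κ_lt k
  have h1 := c.hu1 0
  have h2 := c.hu1 k
  have h3 := c.q_lt
  have h4 := upos c.κ
  have h5 := upos (c.u k)
  have h6 := upos c.q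
  have hn : ‖(((c.u k)⁻¹ * c.u 0 : Kˣ) : K)‖ = ‖(c.u 0 : K)‖ / ‖(c.u k : K)‖ := by
    simp [div_eq_inv_mul]
  apply c.T.ne' <;> rw [hn]
  · rw [lt_div_iff₀ h5]; nlinarith
  · rw [← mul_div_assoc, div_lt_one h5]; nlinarith
  · rw [Ne, div_eq_one_iff_eq h5.ne']
    exact fun h => (mem_erase.1 hk).1 (c.hinj h).symm

omit [CompleteSpace K] in
lemma lam_ne : c.lam ≠ 0 := div_ne_zero (c.hγ 0) (mul_ne_zero c.π.ne_zero c.Θ_u0)

omit [CompleteSpace K] in
lemma U_apply (f : O1 K) (x y : Kˣ) : (c.U f).1 (x, y) = f.1 (c.κ * x * y) := by simp [U]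

omit [CompleteSpace K] in
lemma N_apply (x y : Kˣ) : c.N.1 (x, y) =
    c.lam * c.T.θ.1 (c.π * x) * c.T.θ.1 (c.π * y) * c.Θ.1 (c.κ * x * y) := by
  simp [N, U_apply]

omit [CompleteSpace K] in
lemma D_apply (x y : Kˣ) : c.D.1 (x, y) = c.T.θ.1 x * c.T.θ.1 y := by simp [D]

omit [CompleteSpace K] in
lemma Φ_apply (x y : Kˣ) : c.Φ.1 (x, y) = ∑ l ∈ range (c.a + 1),
    (c.f l).1 (c.κ * x * y) * c.N.1 (x, y) ^ l * c.D.1 (x, y) ^ (c.a - l) := by
  simp only [Φ, AddSubmonoidClass.coe_finsetSum, Finset.sum_apply, MulMemClass.coe_mul, Pi.mul_apply,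
    SubmonoidClass.coe_pow, Pi.pow_apply, U_apply]

omit [CompleteSpace K] in
lemma Φ_symm (x y : Kˣ) : c.Φ.1 (x, y) = c.Φ.1 (y, x) := by
  simp only [Φ_apply, N_apply, D_apply, mul_right_comm c.κ x y]
  refine sum_congr rfl fun l _ => ?_
  ring

omit [CompleteSpace K] in
lemma Φ_shift (x y : Kˣ) : c.Φ.1 (x, y) =
    (-((c.κ * x * y : Kˣ) : K) ^ 3) ^ (111 * c.n) * (-(x : K)) ^ c.a * c.Φ.1 (c.q * x, y) := by
  simp only [Φ_apply, mul_sum]
  refine sum_congr rfl fun l hl => ?_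
  have hl' : l ≤ c.a := Nat.lt_succ_iff.1 (mem_range.1 hl)
  set v : Kˣ := c.κ * x * y with hv
  have e1 : c.κ * (c.q * x) * y = c.q * v := by rw [hv]; ac_rfl
  have hx := x.ne_zero
  have hv0 := v.ne_zero
  have hπ := c.π.ne_zero
  have hN : c.N.1 (c.q * x, y) = ((x : K)⁻¹ * (v : K)⁻¹ ^ 9) * c.N.1 (x, y) := by
    rw [N_apply, N_apply, e1, Θ_shift, mul_left_comm c.π, c.T.shift, ← hv, Units.val_mul]
    field_simp
  have hD : c.D.1 (c.q * x, y) = -(x : K)⁻¹ * c.D.1 (x, y) := by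
    rw [D_apply, D_apply, c.T.shift]; ring
  have hf := c.hf l v
  have hc : (-(v : K)⁻¹ ^ 3) ≠ 0 := neg_ne_zero.2 (pow_ne_zero _ (inv_ne_zero hv0))
  rw [e1, hN, hD]
  apply mul_left_cancel₀ (pow_ne_zero (111 * c.n) hc)
  obtain ⟨b, hb⟩ := Nat.exists_eq_add_of_le hl'
  rw [hb, Nat.add_sub_cancel_left, pow_add]
  have t1 : (-(v : K)⁻¹ ^ 3) ^ (111 * c.n) * (-(v : K) ^ 3) ^ (111 * c.n) = 1 := by
    rw [← mul_pow]; field_simp; simp
  have t2 : (-(x : K)) ^ b * (-(x : K)⁻¹) ^ b = 1 := by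
    rw [← mul_pow]; field_simp; simp
  have t3 : (-(x : K)) ^ l * ((x : K)⁻¹ * (v : K)⁻¹ ^ 9) ^ l = (-(v : K)⁻¹ ^ 3) ^ (3 * l) := by
    rw [← mul_pow, pow_mul]; congr 1; field_simp
  calc _ = ((-(v : K)⁻¹ ^ 3) ^ (111 * c.n) * (c.f l).1 v) * c.N.1 (x, y) ^ l
        * c.D.1 (x, y) ^ b := by ring
    _ = ((-(v : K)⁻¹ ^ 3) ^ (111 * c.n) * (-(v : K) ^ 3) ^ (111 * c.n))
        * ((-(x : K)) ^ b * (-(x : K)⁻¹) ^ b) * ((c.f l).1 (c.q * v) *
        ((-(x : K)) ^ l * ((x : K)⁻¹ * (v : K)⁻¹ ^ 9) ^ l)) * c.N.1 (x, y) ^ l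
        * c.D.1 (x, y) ^ b := by rw [t1, t2, t3, hf]; ring
    _ = _ := by rw [mul_pow, mul_pow]; ring

lemma f_dvd (k : Fin 10) (hk : k ≠ 0) (l : ℕ) : pt (c.u k) ^ (35 * c.n - l) ∣ c.f l := by
  have h := c.hm k
  rw [if_neg hk, mu, if_neg hk] at h
  have h1 := coeff_dvd0 _ _ _ h l
  rw [c.hP] at h1
  exact ((coprime_pt c.γ _ (c.hγ k)).pow).dvd_of_dvd_mul_left h1

lemma E_dvd (k : Fin 10) (hk : k ≠ 0) : ∃ G, c.Φ = c.E k ^ (35 * c.n) * G ∧
    G ∈ Ideal.span {inc 1 1 0 (pt 1), lin (c.Y k) 1} ^ (c.a - 35 * c.n) := by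
  set I : Ideal (O2 K) := Ideal.span {inc 1 1 0 (pt 1), lin (c.Y k) 1} with hI
  have hx : inc 1 1 0 (pt (1 : Kˣ)) ∈ I := Ideal.subset_span (by simp)
  have hy : lin (c.Y k) 1 ∈ I := Ideal.subset_span (by simp)
  have hE : c.E k ∈ I := by
    have : c.E k = (algebraMap K _ (c.κ : K) * mon 1 0) * lin (c.Y k) 1 +
        (algebraMap K _ (c.u k : K) * (mon 1 0 + 1)) * inc 1 1 0 (pt 1) := by
      ext ⟨x, y⟩
      have := c.κ.ne_zero
      simp [E, U_apply, Y]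
      field_simp
      ring
    rw [this]
    exact I.add_mem (I.mul_mem_left _ hy) (I.mul_mem_left _ hx)
  have hD : c.D ∈ I := by
    rw [D, c.T.eq, map_mul, mul_assoc]
    exact I.mul_mem_right _ hx
  have hΘ : pt (c.u k) ∣ c.Θ := by
    apply pt_dvd
    rw [Θ_apply]
    exact prod_eq_zero (mem_erase.2 ⟨hk, mem_univ k⟩) (by simpa using c.T.one)
  have hterm : ∀ l ∈ range (c.a + 1), ∃ G, c.U (c.f l) * c.N ^ l * c.D ^ (c.a - l)
      = c.E k ^ (35 * c.n) * G ∧ G ∈ I ^ (c.a - 35 * c.n) := by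
    intro l hl
    have hl' : l ≤ c.a := Nat.lt_succ_iff.1 (mem_range.1 hl)
    obtain ⟨φ, hφ⟩ := mul_dvd_mul (c.f_dvd k hk l) (pow_dvd_pow_of_dvd hΘ l)
    have e : 35 * c.n - l + l = 35 * c.n + (l - 35 * c.n) := by omega
    rw [← pow_add, e, pow_add] at hφ
    have hφ' := congrArg c.U hφ
    simp only [map_mul, map_pow] at hφ'
    refine ⟨(c.E k ^ (l - 35 * c.n) * c.D ^ (c.a - l)) * (c.U φ *
      (algebraMap K _ c.lam * inc c.π 1 0 c.T.θ * inc c.π 0 1 c.T.θ) ^ l), ?_, ?_⟩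
    · rw [N, mul_pow _ (c.U c.Θ), E]
      linear_combination (algebraMap K (O2 K) c.lam * inc c.π 1 0 c.T.θ * inc c.π 0 1 c.T.θ) ^ l
        * c.D ^ (c.a - l) * hφ'
    · apply Ideal.mul_mem_right
      have := Ideal.mul_mem_mul (Ideal.pow_mem_pow hE (l - 35 * c.n)) (Ideal.pow_mem_pow hD (c.a - l))
      rw [← pow_add] at this
      exact Ideal.pow_le_pow_right (by omega) this
  choose! G hG using hterm
  refine ⟨∑ l ∈ range (c.a + 1), G l, ?_, Ideal.sum_mem _ fun l hl => (hG l hl).2⟩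
  rw [Φ, mul_sum]
  exact sum_congr rfl fun l hl => (hG l hl).1

lemma E0_dvd : c.E 0 ^ (36 * c.n) ∣ c.Φ := by
  have h := c.hm 0
  simp only [if_true, mu] at h
  have h1 := coeff_dvd _ _ _ (taylor_mem _ _ _ h)
  have h2 := hom_taylor c.U.toRingHom c.a c.P le_rfl c.N (c.U c.γ * c.D)
  have h3 : c.E 0 ∣ c.N - c.U c.γ * c.D := by
    have e1 : c.E 0 ∣ lin c.π⁻¹ (-1) := by
      refine ⟨algebraMap K _ (c.κ : K)⁻¹ * mon (-1) 0, ?_⟩
      ext ⟨x, y⟩
      have := c.π.ne_zero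
      have := (c.u 0).ne_zero
      have := x.ne_zero
      simp [E, U_apply, κ_eq]
      field_simp
    refine e1.trans ((lin_dvd_iff _ _ _).2 ?_)
    ext x
    have e2 : c.κ * x * (c.π⁻¹ * x⁻¹) = c.u 0 := by
      rw [κ_eq]; simp [mul_assoc]
    have e3 : c.π * (c.π⁻¹ * x⁻¹) = x⁻¹ := by simp
    have e4 : c.π⁻¹ * x⁻¹ = (c.π * x)⁻¹ := by rw [mul_inv]
    simp only [res_apply, zpow_one, one_mul, zpow_neg, AddSubgroupClass.coe_sub, Pi.sub_apply,
      MulMemClass.coe_mul, Pi.mul_apply, N_apply, U_apply, D_apply, e2, e3,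
      ZeroMemClass.coe_zero, Pi.zero_apply]
    rw [e4, c.T.inv, c.T.inv, lam]
    have := c.π.ne_zero
    have := c.Θ_u0
    have := x.ne_zero
    rw [Units.val_mul]
    field_simp
    ring
  have h4 : c.E 0 ^ (36 * c.n) ∣ c.U c.γ ^ c.a * c.Φ := by
    have e : c.U c.γ ^ c.a * c.Φ = ∑ l ∈ range (c.a + 1),
        c.U.toRingHom (c.P.coeff l) * c.N ^ l * (c.U c.γ * c.D) ^ (c.a - l) := by
      rw [Φ, mul_sum]
      refine sum_congr rfl fun l hl => ?_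
      have hl' : l ≤ c.a := Nat.lt_succ_iff.1 (mem_range.1 hl)
      obtain ⟨b, hb⟩ := Nat.exists_eq_add_of_le hl'
      rw [c.hP, hb, Nat.add_sub_cancel_left, pow_add, mul_pow]
      simp only [AlgHom.toRingHom_eq_coe, RingHom.coe_coe, map_mul, map_pow]
      ring
    rw [e, h2]
    refine dvd_sum fun l _ => Dvd.dvd.mul_right ?_ _
    have e5 := map_dvd c.U (h1 l)
    rw [map_pow] at e5
    refine (pow_dvd_pow _ (show 36 * c.n ≤ 36 * c.n - l + l by omega)).trans ?_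
    rw [pow_add]
    exact mul_dvd_mul e5 (pow_dvd_pow_of_dvd h3 l)
  exact (((coprime_pt c.γ _ (c.hγ 0)).map c.U.toRingHom).pow).dvd_of_dvd_mul_left h4

lemma E_dvd' (k : Fin 10) : c.E k ^ mu c.n k ∣ c.Φ := by
  by_cases hk : k = 0
  · subst hk; simpa [mu] using c.E0_dvd
  · obtain ⟨G, hG, -⟩ := c.E_dvd k hk
    simp only [mu, hk, if_false]
    exact ⟨G, hG⟩

lemma E_dvd'' (k : Fin 10) : dil2 c.q 1 (c.E k) ^ mu c.n k ∣ c.Φ := by
  have h := map_dvd (dil2 c.q 1) (c.E_dvd' k)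
  rw [map_pow] at h
  refine h.trans ⟨(-(c.U (xp 1)) ^ 3) ^ (111 * c.n) * (-mon 1 0) ^ c.a, ?_⟩
  ext ⟨x, y⟩
  rw [Φ_shift]
  simp [U_apply]
  ring

end Cfg

end Pool.Agent.P.MP_3285df_ag
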