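import Pool.Agent.P.MP_3285df_ag.Core1

/-! The two zero counts and the contradiction. -/

namespace Pool.Agent.P.MP_3285df_ag

open Finset

lemma split_dvd {R : Type*} [CommRing R] [IsDomain R] {l e H G : R} (hl : Prime l) (he : ¬ l ∣ e)
    (β m : ℕ) (h : l ^ β * H = e ^ m * G) : ∃ G', G = l ^ β * G' ∧ H = e ^ m * G' := by
  obtain ⟨G', rfl⟩ := hl.pow_dvd_of_dvd_mul_left β (fun hd => he (hl.dvd_of_dvd_pow hd))
    (⟨H, h.symm⟩ : l ^ β ∣ e ^ m * G)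
  refine ⟨G', rfl, mul_left_cancel₀ (pow_ne_zero β hl.ne_zero) ?_⟩
  rw [h]; ring

variable {K : Type*} [NormedField K] [IsUltrametricDist K] [CompleteSpace K]

/-- the function `α x^2 - β` -/
noncomputable def quad (α β : Kˣ) : O1 K := algebraMap K _ (α : K) * xp 2 - algebraMap K _ (β : K)

omit [CompleteSpace K] in
@[simp] lemma quad_apply (α β x : Kˣ) : (quad α β).1 x = α * (x : K) ^ 2 - β := by
  simp [quad, zpow_ofNat]

omit [CompleteSpace K] in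
lemma quad_ne (q : Kˣ) (hq : ‖(q : K)‖ < 1) (α β : Kˣ) : quad α β ≠ 0 := by
  intro h
  have h1 := congrFun (congrArg Subtype.val h) 1
  have h2 := congrFun (congrArg Subtype.val h) q
  simp only [quad_apply, Units.val_one, one_pow, mul_one, ZeroMemClass.coe_zero, Pi.zero_apply,
    sub_eq_zero] at h1 h2
  rw [← h1, mul_eq_left₀ α.ne_zero] at h2
  have h3 := congrArg norm h2
  rw [norm_pow, norm_one] at h3
  have := upos q
  nlinarith

omit [CompleteSpace K] in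
lemma quad_coprime (α β α' β' : Kˣ) (h : (α : K) * β' - α' * β ≠ 0) :
    IsCoprime (quad α β) (quad α' β') := by
  refine ⟨algebraMap K _ (((α : K) * β' - α' * β)⁻¹ * α'),
    -algebraMap K _ (((α : K) * β' - α' * β)⁻¹ * α), ?_⟩
  ext x
  simp
  field_simp
  ring

omit [CompleteSpace K] in
lemma norm_prod_apply {ι : Type*} (s : Finset ι) (g : ι → O1 K) (x : Kˣ) :
    ‖(∏ i ∈ s, g i).1 x‖ = ∏ i ∈ s, ‖(g i).1 x‖ := by
  rw [← ev_apply, map_prod, norm_prod]; rfl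

lemma sum_mu (n : ℕ) : ∑ k, mu n k = 351 * n := by
  simp [mu, Fin.sum_univ_succ]; ring

namespace Cfg

variable (c : Cfg K)

omit [CompleteSpace K] in
lemma fa_ne : c.f c.a ≠ 0 := by
  intro h
  have := c.hP c.a
  rw [h, mul_zero] at this
  exact c.hP0 (Polynomial.leadingCoeff_eq_zero.1 this)

omit [CompleteSpace K] in
lemma norm_Y (i : Fin 10) : ‖(c.Y i : K)‖ = ‖(c.u i : K)‖ / ‖(c.κ : K)‖ := by
  simp [Y, div_eq_mul_inv]

variable [Rich K]

lemma L1 (β : Fin 10 → ℕ) (h : ∀ i, i ≠ 0 → lin (c.Y i) 1 ^ β i ∣ c.Φ) :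
    ∑ i ∈ univ.erase 0, β i + 9 * c.a ≤ 333 * c.n := by
  have hκ := upos c.κ
  have hκ1 := c.κ_lt_one
  have hQ := upos c.q
  have hq := c.q_lt
  have hπ := c.π_bd
  have hz : ∀ i, ‖(((c.Y i)⁻¹ : Kˣ) : K)‖ = ‖(c.κ : K)‖ / ‖(c.u i : K)‖ := by
    intro i; rw [Units.val_inv_eq_inv_val, norm_inv, norm_Y, inv_div]
  have hz1 : ∀ i, ‖(c.κ : K)‖ < ‖(c.κ : K)‖ / ‖(c.u i : K)‖ := fun i => by
    rw [lt_div_iff₀ (upos _)]; exact mul_lt_of_lt_one_right hκ (c.hu1 i)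
  have hz2 : ∀ i, ‖(c.κ : K)‖ / ‖(c.u i : K)‖ < 1 := fun i => by
    rw [div_lt_one (upos _)]; exact c.κ_lt i
  have e1 : res 1 1 1 0 c.Φ = (res 1 1 1 0 c.N) ^ c.a * dil1 c.κ (c.f c.a) := by
    ext x
    simp only [res_apply, zpow_one, one_mul, zpow_zero, mul_one, Φ_apply, D_apply, c.T.one,
      mul_zero, MulMemClass.coe_mul, Pi.mul_apply, SubmonoidClass.coe_pow, Pi.pow_apply,
      dil1_apply]
    rw [sum_range_succ, sum_eq_zero fun l hl => by
      rw [zero_pow (by have := mem_range.1 hl; omega), mul_zero]]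
    simp [mul_comm]
  have e2 : ∀ i ∈ univ.erase 0, pt (c.Y i)⁻¹ ^ β i ∣ dil1 c.κ (c.f c.a) := by
    intro i hi
    have h1 := map_dvd (res 1 1 1 0) (h i (mem_erase.1 hi).1)
    rw [map_pow, e1] at h1
    have h2 : pt (c.Y i)⁻¹ ∣ res 1 1 1 0 (lin (c.Y i) 1) := pt_dvd _ _ (by simp)
    refine ((coprime_pt _ _ ?_).pow).dvd_of_dvd_mul_left ((pow_dvd_pow_of_dvd h2 _).trans h1)
    simp only [res_apply, zpow_one, one_mul, zpow_zero, mul_one, N_apply]
    have a1 := hz1 i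
    have a2 := hz2 i
    refine mul_ne_zero (mul_ne_zero (mul_ne_zero c.lam_ne (c.θ_ne _ ?_ ?_)) (c.θ_ne _ ?_ hπ.2)) ?_
    · rw [Units.val_mul, norm_mul, hz]; nlinarith [hπ.1]
    · rw [Units.val_mul, norm_mul, hz]; nlinarith [hπ.1, hπ.2]
    · nlinarith [hπ.1]
    · rw [Θ_apply, prod_ne_zero_iff]
      intro k _
      have hn : ‖(((c.u k)⁻¹ * (c.κ * (c.Y i)⁻¹) : Kˣ) : K)‖
          = (‖(c.κ : K)‖ / ‖(c.u k : K)‖) * (‖(c.κ : K)‖ / ‖(c.u i : K)‖) := by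
        rw [Units.val_mul, Units.val_mul, norm_mul, norm_mul, hz, Units.val_inv_eq_inv_val,
          norm_inv]; ring
      have b1 := hz1 k
      have b2 := hz2 k
      apply c.θ_ne <;> rw [hn] <;> nlinarith
  have e3 : ∏ i ∈ univ.erase 0, pt (c.Y i)⁻¹ ^ β i ∣ dil1 c.κ (c.f c.a) := by
    refine prod_dvd_of_coprime (fun i _ j _ hij => IsCoprime.pow (coprime_pt _ _ ?_)) e2
    rw [pt_apply, sub_ne_zero]
    intro he
    have h1 := congrArg norm he
    rw [hz, hz, div_eq_div_iff (upos _).ne' (upos _).ne', mul_right_inj' hκ.ne'] at h1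
    exact hij (c.hinj h1).symm
  obtain ⟨φ, hφ⟩ := e3
  have hφ0 : φ ≠ 0 := by
    rintro rfl
    apply c.fa_ne
    ext x
    simpa using congrFun (congrArg Subtype.val hφ) (c.κ⁻¹ * x)
  have hlt : 1 < ‖(c.κ : K)‖ / ‖(c.q : K)‖ := by rw [one_lt_div hQ]; nlinarith
  set A := ∏ i ∈ univ.erase 0, (‖(c.κ : K)‖ / ‖(c.u i : K)‖) ^ β i with hA
  have hA0 : 0 < A := prod_pos fun i _ => pow_pos (hκ.trans (hz1 i)) _
  have := (zcore φ hφ0 c.q c.hq zero_le_one hlt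
    (‖(c.κ : K)‖ ^ (9 * c.a) / (‖(c.κ : K)‖ ^ (333 * c.n) * A))
    ((∑ i ∈ univ.erase 0, β i + 9 * c.a : ℕ) - (333 * c.n : ℕ)) fun x hx1 hx2 => ?_).1
  · omega
  rw [lt_div_iff₀ hQ] at hx2
  have hx := upos x
  have f1 := congrArg norm (c.hf c.a (c.κ * x))
  have f2 : ∀ y, ‖(c.f c.a).1 (c.κ * y)‖ =
      (∏ i ∈ univ.erase 0, ‖(y : K) - ((c.Y i)⁻¹ : Kˣ)‖ ^ β i) * ‖φ.1 y‖ := by
    intro y
    rw [← dil1_apply, hφ, MulMemClass.coe_mul, Pi.mul_apply, norm_mul, norm_prod_apply]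
    simp
  have f3 : ∀ i, ‖(x : K) - ((c.Y i)⁻¹ : Kˣ)‖ = ‖(x : K)‖ := fun i =>
    norm_sub_l (by rw [hz]; exact (hz2 i).trans hx1)
  have f4 : ∀ i, ‖((c.q * x : Kˣ) : K) - ((c.Y i)⁻¹ : Kˣ)‖ = ‖(c.κ : K)‖ / ‖(c.u i : K)‖ :=
    fun i => by
      rw [norm_sub_r, hz]
      rw [hz, Units.val_mul, norm_mul, mul_comm]; exact hx2.trans (hz1 i)
  rw [norm_mul, norm_mul, mul_left_comm c.q, f2, f2] at f1
  simp only [f3, f4, ← hA] at f1
  simp only [prod_pow_eq_pow_sum, norm_pow, norm_neg, norm_inv, Units.val_mul,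
    norm_mul, ← pow_mul, inv_pow, mul_pow] at f1
  rw [zpow_sub₀ hx.ne', zpow_natCast, zpow_natCast, pow_add]
  rw [show 3 * (3 * c.a) = 9 * c.a by ring, show 3 * (111 * c.n) = 333 * c.n by ring] at f1
  field_simp at f1 ⊢
  linarith

lemma H_shift (i : Fin 10) (β : ℕ) (H : O2 K) (hH : c.Φ = lin (c.Y i) 1 ^ β * H) (x y : Kˣ) :
    H.1 (x, y) = (-((c.κ * x * y : Kˣ) : K) ^ 3) ^ (111 * c.n) * (-(x : K)) ^ c.a *
      ((-((c.q * (c.κ * x * y) : Kˣ) : K) ^ 3) ^ (111 * c.n) * (-(y : K)) ^ c.a) * (c.q : K) ^ β *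
      H.1 (c.q * x, c.q * y) := by
  have key : H = (-(c.U (xp 1)) ^ 3) ^ (111 * c.n) * (-mon 1 0) ^ c.a *
      ((-(algebraMap K _ (c.q : K) * c.U (xp 1)) ^ 3) ^ (111 * c.n) * (-mon 0 1) ^ c.a) *
      algebraMap K _ (c.q : K) ^ β * dil2 c.q c.q H := by
    apply mul_left_cancel₀ (pow_ne_zero β (lin_ne_zero (c.Y i) 1 c.q c.hq))
    rw [← hH]
    ext ⟨x, y⟩
    rw [c.Φ_shift, c.Φ_symm, c.Φ_shift, c.Φ_symm, hH]
    have e : c.κ * y * (c.q * x) = c.q * (c.κ * x * y) := by ac_rfl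
    have e2 : ((c.q : K) * y - c.Y i * (c.q * x)) = c.q * (y - c.Y i * x) := by ring
    simp only [e, MulMemClass.coe_mul, Pi.mul_apply, SubmonoidClass.coe_pow, Pi.pow_apply,
      lin_apply, zpow_one, Units.val_mul, e2, mul_pow (c.q : K), NegMemClass.coe_neg, Pi.neg_apply,
      U_apply, xp_apply, mon_apply, zpow_zero, mul_one, one_mul, dil2_apply,
      SubalgebraClass.coe_algebraMap, Pi.algebraMap_apply, Algebra.algebraMap_self,
      RingHom.id_apply]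
    ring
  have := congrFun (congrArg Subtype.val key) (x, y)
  simpa [U_apply] using this

lemma L2 (i : Fin 10) (hi : i ≠ 0) (β : ℕ) (H : O2 K) (hH : c.Φ = lin (c.Y i) 1 ^ β * H)
    (hne : res 1 (c.Y i) 1 1 H ≠ 0) :
    (c.a - 35 * c.n - β) + 72 * c.n ≤ 2 * c.a ∧ ((c.a - 35 * c.n - β) + 72 * c.n = 2 * c.a →
      ∃ N : ℤ, ‖(c.q : K)‖ ^ (351 * c.n) * ‖(c.u i : K)‖ ^ (702 * c.n) * ‖(c.κ : K)‖ ^ c.a /
        (‖(c.q : K)‖ ^ (β + 333 * c.n) * ‖(c.u i : K)‖ ^ (666 * c.n + c.a) *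
          (∏ k, ‖(c.u k : K)‖ ^ mu c.n k) ^ 2) = ‖(c.q : K)‖ ^ N) := by
  set s := c.a - 35 * c.n - β with hs
  set ρ := res 1 (c.Y i) 1 1 with hρ
  have hκ := upos c.κ
  have hκ1 := c.κ_lt_one
  have hQ := upos c.q
  have hQ1 := c.hq
  have hq := c.q_lt
  have hui := upos (c.u i)
  have hp := prime_lin (c.Y i) 1 c.q c.hq
  have r1 : ∀ k, ρ (c.E k) = quad (c.u i) (c.u k) := by
    intro k; ext x
    have := c.κ.ne_zero
    simp [hρ, E, U_apply, Y]; field_simp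
  have r2 : ∀ k, ρ (dil2 c.q 1 (c.E k)) = quad (c.q * c.u i) (c.u k) := by
    intro k; ext x
    have := c.κ.ne_zero
    simp [hρ, E, U_apply, Y]; field_simp
  have tr : ∀ e : O2 K, ρ e ≠ 0 → ∀ m, e ^ m ∣ c.Φ → ρ e ^ m ∣ ρ H := by
    rintro e he m ⟨G, hG⟩
    obtain ⟨G', -, h2⟩ := split_dvd hp (fun hd => he ((lin_dvd_iff _ _ _).1 hd)) β m
      (hH.symm.trans hG)
    rw [h2, map_mul, map_pow]
    exact dvd_mul_right _ _
  let b : Fin 10 × Bool → O1 K := fun j => quad (if j.2 then c.q * c.u i else c.u i) (c.u j.1)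
  let t : Fin 10 × Bool → O1 K := fun j =>
    b j ^ mu c.n j.1 * (if j = (i, false) then pt 1 ^ s else 1)
  have hpt : pt 1 ∣ b (i, false) := pt_dvd _ _ (by simp [b])
  have htb : ∀ j, t j ∣ b j ^ (mu c.n j.1 + s) := by
    intro j
    rw [pow_add]
    refine mul_dvd_mul_left _ ?_
    split_ifs with hj
    · rw [hj]; exact pow_dvd_pow_of_dvd hpt s
    · exact one_dvd _
  have hb : ∀ j j', j ≠ j' → IsCoprime (b j) (b j') := by
    rintro ⟨k, e⟩ ⟨k', e'⟩ hj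
    apply quad_coprime
    rw [sub_ne_zero]
    intro he
    have h1 := congrArg norm he
    have a1 := c.κ_lt k
    have a2 := c.κ_lt k'
    have a3 := c.hu1 k
    have a4 := c.hu1 k'
    cases e <;> cases e' <;>
      simp only [Bool.false_eq_true, if_false, if_true, Units.val_mul, norm_mul, mul_assoc,
        mul_right_inj' hui.ne', mul_right_inj' hQ.ne', mul_left_comm ‖(c.q : K)‖] at h1
    · exact hj (by rw [c.hinj h1])
    · nlinarith
    · nlinarith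
    · exact hj (by rw [c.hinj h1])
  have ht : ∀ j, t j ∣ ρ H := by
    rintro ⟨k, e⟩
    by_cases hj : (k, e) = (i, false)
    · obtain ⟨G, hG, hGI⟩ := c.E_dvd i hi
      have he : ρ (c.E i) ≠ 0 := by rw [r1]; exact quad_ne c.q c.hq _ _
      obtain ⟨G', h1, h2⟩ := split_dvd hp (fun hd => he ((lin_dvd_iff _ _ _).1 hd)) β _
        (hH.symm.trans hG)
      rw [h1] at hGI
      have e1 : ρ (inc 1 1 0 (pt 1)) = pt 1 := by ext x; simp [hρ]
      have h3 := colon ρ.toRingHom _ _ hp.ne_zero (fun c => (lin_dvd_iff _ _ c).symm)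
        (by
          change ρ (inc 1 1 0 (pt 1)) ≠ 0
          rw [e1]
          intro h0
          have := congrFun (congrArg Subtype.val h0) c.q
          simp only [pt_apply, Units.val_one, ZeroMemClass.coe_zero, Pi.zero_apply,
            sub_eq_zero] at this
          simp [this] at hQ1) β _ G' hGI
      change ρ (inc 1 1 0 (pt 1)) ^ s ∣ ρ G' at h3
      rw [e1] at h3
      rw [hj, h2, map_mul, map_pow, r1]
      simp only [t, b, if_true, Bool.false_eq_true, if_false, mu, hi]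
      exact mul_dvd_mul_left _ h3
    · simp only [t, hj, if_false, mul_one, b]
      cases e
      · simp only [Bool.false_eq_true, if_false]
        rw [← r1]
        exact tr _ (by rw [r1]; exact quad_ne c.q c.hq _ _) _ (c.E_dvd' k)
      · simp only [if_true]
        rw [← r2]
        exact tr _ (by rw [r2]; exact quad_ne c.q c.hq _ _) _ (c.E_dvd'' k)
  obtain ⟨h', hh'⟩ := Fintype.prod_dvd_of_coprime (s := t) (fun j j' hj =>
    (((hb j j' hj).pow).of_isCoprime_of_dvd_left (htb j)).of_isCoprime_of_dvd_right (htb j')) ht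
  have hh0 : h' ≠ 0 := by
    rintro rfl
    exact hne (by rw [hh', mul_zero])
  have hnorm : ∀ x : Kˣ, ‖H.1 (x, c.Y i * x)‖ =
      (∏ k, ‖(c.u i : K) * (x : K) ^ 2 - c.u k‖ ^ mu c.n k) *
      (∏ k, ‖(c.q : K) * c.u i * (x : K) ^ 2 - c.u k‖ ^ mu c.n k) * ‖(x : K) - 1‖ ^ s * ‖h'.1 x‖ := by
    intro x
    have : H.1 (x, c.Y i * x) = (ρ H).1 x := by simp [hρ]
    rw [this, hh', MulMemClass.coe_mul, Pi.mul_apply, norm_mul]
    congr 1
    simp only [t]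
    rw [prod_mul_distrib, prod_ite_eq', if_pos (mem_univ _), MulMemClass.coe_mul, Pi.mul_apply,
      norm_mul, norm_prod_apply, Fintype.prod_prod_type_right, Fintype.prod_bool, mul_comm (∏ _k, _)]
    simp [b]
  have hlt : Real.sqrt (1 / (‖(c.q : K)‖ * ‖(c.κ : K)‖)) <
      Real.sqrt (‖(c.κ : K)‖ / ‖(c.q : K)‖ ^ 2) := by
    apply Real.sqrt_lt_sqrt (by positivity)
    rw [div_lt_div_iff₀ (by positivity) (by positivity)]
    nlinarith
  set A := ∏ k, ‖(c.u k : K)‖ ^ mu c.n k with hA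
  have hA0 : 0 < A := prod_pos fun k _ => pow_pos (upos _) _
  have := zcore h' hh0 c.q c.hq (Real.sqrt_nonneg _) hlt
    (‖(c.q : K)‖ ^ (351 * c.n) * ‖(c.u i : K)‖ ^ (702 * c.n) * ‖(c.κ : K)‖ ^ c.a /
        (‖(c.q : K)‖ ^ (β + 333 * c.n) * ‖(c.u i : K)‖ ^ (666 * c.n + c.a) * A ^ 2))
    ((s + 72 * c.n : ℕ) - (2 * c.a : ℕ)) fun x hx1 hx2 => ?_
  · exact ⟨by omega, fun h => this.2 (by omega)⟩
  have hx := upos x
  rw [Real.sqrt_lt' hx, div_lt_iff₀ (by positivity)] at hx1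
  rw [Real.lt_sqrt hx.le, lt_div_iff₀ (by positivity)] at hx2
  have a0 := c.κ_lt i
  have a1 := c.hu1 i
  have hx2' : 0 < ‖(x : K)‖ ^ 2 := by positivity
  have g0 : 1 < ‖(c.q : K)‖ * ‖(c.u i : K)‖ * ‖(x : K)‖ ^ 2 := by
    have := mul_lt_mul_of_pos_left a0 (mul_pos hx2' hQ)
    linarith
  have g1 : ∀ k, ‖(c.u i : K) * (x : K) ^ 2 - c.u k‖ = ‖(c.u i : K)‖ * ‖(x : K)‖ ^ 2 := by
    intro k
    rw [norm_sub_l, norm_mul, norm_pow]
    rw [norm_mul, norm_pow]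
    have := c.hu1 k
    nlinarith [mul_pos hui hx2']
  have g2 : ∀ k, ‖(c.q : K) * c.u i * (x : K) ^ 2 - c.u k‖
      = ‖(c.q : K)‖ * ‖(c.u i : K)‖ * ‖(x : K)‖ ^ 2 := by
    intro k
    rw [norm_sub_l, norm_mul, norm_mul, norm_pow]
    rw [norm_mul, norm_mul, norm_pow]
    exact (c.hu1 k).trans g0
  have g3 : ‖(x : K) - 1‖ = ‖(x : K)‖ := by
    apply norm_sub_l
    rw [norm_one]
    by_contra hc
    have : ‖(x : K)‖ ^ 2 ≤ 1 := pow_le_one₀ hx.le (not_lt.1 hc)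
    nlinarith [mul_pos hQ hui]
  have hqx : ‖((c.q * x : Kˣ) : K)‖ ^ 2 < ‖(c.κ : K)‖ := by
    rw [Units.val_mul, norm_mul, mul_pow]; linarith
  have hqx0 : 0 < ‖((c.q * x : Kˣ) : K)‖ ^ 2 := pow_pos (upos _) _
  have g4 : ∀ k, ‖(c.u i : K) * ((c.q * x : Kˣ) : K) ^ 2 - c.u k‖ = ‖(c.u k : K)‖ := by
    intro k
    apply norm_sub_r
    rw [norm_mul, norm_pow]
    have := c.κ_lt k
    nlinarith
  have g5 : ∀ k, ‖(c.q : K) * c.u i * ((c.q * x : Kˣ) : K) ^ 2 - c.u k‖ = ‖(c.u k : K)‖ := by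
    intro k
    apply norm_sub_r
    rw [norm_mul, norm_mul, norm_pow]
    have := c.κ_lt k
    have : ‖(c.q : K)‖ * ‖(c.u i : K)‖ < 1 := by nlinarith
    nlinarith
  have g6 : ‖((c.q * x : Kˣ) : K) - 1‖ = 1 := by
    rw [norm_sub_r, norm_one]
    rw [norm_one]
    by_contra hc
    have : 1 ≤ ‖((c.q * x : Kˣ) : K)‖ ^ 2 := one_le_pow₀ (not_lt.1 hc)
    linarith
  have f1 := congrArg norm (c.H_shift i β H hH x (c.Y i * x))
  have e1 : ‖((c.κ * x * (c.Y i * x) : Kˣ) : K)‖ = ‖(c.u i : K)‖ * ‖(x : K)‖ ^ 2 := by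
    simp only [Units.val_mul, norm_mul, norm_Y]; field_simp
  rw [mul_left_comm c.q (c.Y i)] at f1
  simp only [norm_mul, norm_pow, norm_neg, hnorm, g1, g2, g3, g4, g5, g6, prod_pow_eq_pow_sum,
    sum_mu, ← hA, Units.val_mul c.q (c.κ * x * (c.Y i * x)), e1, Units.val_mul (c.Y i), norm_Y,
    one_pow, mul_one] at f1
  rw [zpow_sub₀ hx.ne', zpow_natCast, zpow_natCast]
  have hn : ∀ y : ℝ, ∀ m : ℕ, y ^ (m * c.n) = (y ^ c.n) ^ m := fun y m => by
    rw [← pow_mul, mul_comm]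
  simp only [mul_pow, div_pow, ← pow_mul, ← mul_assoc, Nat.reduceMul] at f1
  simp only [pow_add, hn, mul_comm 2 c.a, pow_mul] at f1 ⊢
  have p1 : 0 < ‖(x : K)‖ ^ c.n := by positivity
  have p2 : 0 < ‖(x : K)‖ ^ c.a := by positivity
  have p3 : 0 < ‖(c.u i : K)‖ ^ c.n := by positivity
  have p4 : 0 < ‖(c.u i : K)‖ ^ c.a := by positivity
  have p5 : 0 < ‖(c.q : K)‖ ^ c.n := by positivity
  have p6 : 0 < ‖(c.q : K)‖ ^ β := by positivity
  have p7 : 0 < ‖(c.κ : K)‖ ^ c.a := by positivity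
  generalize ‖(x : K)‖ ^ c.n = X1 at *
  generalize ‖(x : K)‖ ^ c.a = X2 at *
  generalize ‖(c.u i : K)‖ ^ c.n = X3 at *
  generalize ‖(c.u i : K)‖ ^ c.a = X4 at *
  generalize ‖(c.q : K)‖ ^ c.n = X5 at *
  generalize ‖(c.q : K)‖ ^ β = X6 at *
  generalize ‖(c.κ : K)‖ ^ c.a = X7 at *
  field_simp at f1 ⊢
  linarith

theorem false_of_gen (hn : 0 < c.n) (hgen : ∀ (e : Fin 10 → ℤ) (N : ℤ),
    ∑ k, (e k : ℝ) * Real.log ‖(c.u k : K)‖ = N * Real.log ‖(c.q : K)‖ → e 1 = 0) : False := by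
  classical
  have hex : ∀ i, i ≠ 0 → ∃ b, ¬ lin (c.Y i) 1 ^ (b + 1) ∣ c.Φ := by
    intro i hi
    refine ⟨333 * c.n, fun h => ?_⟩
    have := c.L1 (Pi.single i (333 * c.n + 1)) fun j _ => by
      by_cases hj : j = i
      · subst hj; simpa using h
      · simp [hj]
    rw [sum_pi_single', if_pos (mem_erase.2 ⟨hi, mem_univ i⟩)] at this
    omega
  have hβ : ∀ i, i ≠ 0 → ∃ β H, c.Φ = lin (c.Y i) 1 ^ β * H ∧ res 1 (c.Y i) 1 1 H ≠ 0 := by
    intro i hi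
    have h1 := Nat.find_spec (hex i hi)
    have h2 : lin (c.Y i) 1 ^ Nat.find (hex i hi) ∣ c.Φ := by
      rcases h : Nat.find (hex i hi) with _ | b
      · simp
      · exact not_not.1 (Nat.find_min (hex i hi) (by omega))
    obtain ⟨H, hH⟩ := h2
    refine ⟨_, H, hH, fun h0 => h1 ?_⟩
    have h3 := mul_dvd_mul_left (lin (c.Y i) 1 ^ Nat.find (hex i hi)) ((lin_dvd_iff _ _ _).2 h0)
    rwa [← hH, ← pow_succ] at h3
  choose! β H hH using hβ
  have h1 := c.L1 β fun i hi => ⟨H i, (hH i hi).1⟩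
  have h2 := fun i hi => c.L2 i hi (β i) (H i) (hH i hi).1 (hH i hi).2
  have h3 : ∀ i, i ≠ 0 → 37 * c.n ≤ β i + c.a := fun i hi => by have := (h2 i hi).1; omega
  have h4 : ∑ i ∈ univ.erase 0, β i = β 1 + ∑ i ∈ (univ.erase 0).erase 1, β i :=
    (add_sum_erase _ _ (by decide)).symm
  have h5 : ∑ i ∈ ((univ : Finset (Fin 10)).erase 0).erase 1, 37 * c.n ≤
      ∑ i ∈ (univ.erase 0).erase 1, (β i + c.a) :=
    sum_le_sum fun i hi => h3 i (mem_erase.1 (mem_erase.1 hi).2).1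
  have h6 : (((univ : Finset (Fin 10)).erase 0).erase 1).card = 8 := by decide
  rw [sum_add_distrib, sum_const, sum_const, h6, smul_eq_mul, smul_eq_mul] at h5
  obtain ⟨h7, h8⟩ := h2 1 (by decide)
  obtain ⟨N, hN⟩ := h8 (by omega)
  have hQ := (upos c.q).ne'
  have hu := fun k => (upos (c.u k)).ne'
  have hκ : Real.log ‖(c.κ : K)‖ = ∑ k, Real.log ‖(c.u k : K)‖ := by
    rw [κ, Units.coe_prod, norm_prod, Real.log_prod fun k _ => hu k]
  have hA : Real.log (∏ k, ‖(c.u k : K)‖ ^ mu c.n k) = ∑ k, mu c.n k * Real.log ‖(c.u k : K)‖ := by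
    rw [Real.log_prod fun k _ => pow_ne_zero _ (hu k)]
    simp
  have hA0 : ∏ k, ‖(c.u k : K)‖ ^ mu c.n k ≠ 0 := prod_ne_zero_iff.2 fun k _ => pow_ne_zero _ (hu k)
  have hκ0 := (upos c.κ).ne'
  have hu1 := hu 1
  have hl := congrArg Real.log hN
  rw [Real.log_div (by positivity) (by positivity), Real.log_mul (by positivity) (by positivity),
    Real.log_mul (by positivity) (by positivity), Real.log_mul (by positivity) (by positivity),
    Real.log_mul (by positivity) (by positivity)] at hl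
  simp only [Real.log_pow, Real.log_zpow, hκ, hA] at hl
  have := hgen (fun k => (c.a : ℤ) - 2 * mu c.n k + if k = 1 then 36 * (c.n : ℤ) - (c.a : ℤ) else 0)
    (N + β 1 - 18 * c.n) (by
      simp only [Int.cast_add, Int.cast_sub, Int.cast_mul, Int.cast_natCast, Int.cast_ofNat,
        Int.cast_ite, Int.cast_zero, add_mul, sub_mul, sum_add_distrib, sum_sub_distrib, ite_mul,
        zero_mul, sum_ite_eq', mem_univ, if_true, mul_assoc, ← mul_sum]
      push_cast at hl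
      linarith)
  simp [mu] at this
  omega

end Cfg

end Pool.Agent.P.MP_3285df_ag
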