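import Pool.Agent.P.MP_3285df_ag.Theta

/-! The plane cubic parametrised by theta functions. -/

namespace Pool.Agent.P.MP_3285df_ag

open MvPolynomial Finset

lemma deg3 {R : Type*} [CommSemiring R] {F : MvPolynomial (Fin 3) R} {e : ℕ}
    (hF : F.IsHomogeneous e) {m : Fin 3 →₀ ℕ} (hm : m ∈ F.support) : m 0 + m 1 + m 2 = e := by
  by_contra h
  apply mem_support_iff.1 hm
  apply hF.coeff_eq_zero
  rwa [Finsupp.degree_eq_sum, Fin.sum_univ_three]

lemma ext3 {m m' : Fin 3 →₀ ℕ} (h0 : m 0 = m' 0) (h1 : m 1 = m' 1) (h2 : m 2 = m' 2) : m = m' := by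
  ext i; fin_cases i <;> assumption

lemma hom_eval₂ {R S : Type*} [CommSemiring R] [CommSemiring S] {F : MvPolynomial (Fin 3) R}
    {e : ℕ} (hF : F.IsHomogeneous e) (φ : R →+* S) (v : Fin 3 → S) (t : S) :
    eval₂ φ (fun l => t * v l) F = t ^ e * eval₂ φ v F := by
  rw [eval₂_eq', eval₂_eq', mul_sum]
  refine sum_congr rfl fun m hm => ?_
  simp only [mul_pow, Fin.prod_univ_three, ← deg3 hF hm, pow_add]
  ring

variable {K : Type*} [NormedField K] [IsUltrametricDist K] [CompleteSpace K]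

/-- three theta functions of degree three with vanishing orders 1, 3, 0 at the origin -/
structure Emb (q : Kˣ) where
  ι : Fin 3 → O1 K
  η : Fin 3 → O1 K
  h0 : ι 0 = pt 1 * η 0
  h1 : ι 1 = pt 1 ^ 3 * η 1
  h2 : ι 2 = η 2
  ne : ∀ l, (η l).1 1 ≠ 0
  shift : ∀ l (x : Kˣ), (ι l).1 (q * x) = (-(x : K)⁻¹ ^ 3) * (ι l).1 x

omit [CompleteSpace K] in
theorem exists_Emb {q : Kˣ} (hq : ‖(q : K)‖ < 1) (T : Th q) (α : Kˣ) (h1 : ‖(α : K)‖ < 1)
    (h2 : ‖(q : K)‖ < ‖(α : K)‖ ^ 2) : Nonempty (Emb q) := by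
  have hα := upos α
  have hQ := upos q
  have a1 : T.θ.1 α⁻¹ ≠ 0 := by
    have : 1 < ‖(α : K)‖⁻¹ := one_lt_inv₀ hα |>.2 h1
    apply T.ne' <;> rw [Units.val_inv_eq_inv_val, norm_inv]
    · linarith
    · rw [← div_eq_mul_inv, div_lt_one hα]; nlinarith
    · exact this.ne'
  have a2 : T.θ.1 α ≠ 0 := T.ne' α (by nlinarith) (by nlinarith) h1.ne
  have a3 : T.θ.1 (α ^ 2) ≠ 0 := by
    have : ‖(α : K)‖ ^ 2 < 1 := by nlinarith
    apply T.ne' <;> rw [Units.val_pow_eq_pow_val, norm_pow]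
    · exact h2
    · nlinarith
    · exact this.ne
  have a4 : T.θ1.1 1 ≠ 0 := T.ne 1 (by simpa using hq) (by simpa using hq)
  refine ⟨⟨![T.θ * (dil1 α⁻¹ T.θ * dil1 α T.θ), T.θ ^ 3, dil1 α⁻¹ T.θ ^ 2 * dil1 (α ^ 2) T.θ],
    ![T.θ1 * (dil1 α⁻¹ T.θ * dil1 α T.θ), T.θ1 ^ 3, dil1 α⁻¹ T.θ ^ 2 * dil1 (α ^ 2) T.θ],
    ?_, ?_, rfl, fun l => ?_, fun l x => ?_⟩⟩
  · simp only [Matrix.cons_val_zero]
    nth_rewrite 1 [T.eq]
    ring
  · simp only [Matrix.cons_val_one, Matrix.cons_val_zero]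
    rw [T.eq, mul_pow]
  · fin_cases l <;> simp [a1, a2, a3, a4]
  · have hx := x.ne_zero
    have hα' := α.ne_zero
    fin_cases l <;>
      simp [mul_left_comm α⁻¹ q, mul_left_comm α q, mul_left_comm (α ^ 2) q, T.shift] <;>
      field_simp

namespace Emb

variable {q : Kˣ} (M : Emb q)

omit [CompleteSpace K] in
lemma aeval_apply (F : MvPolynomial (Fin 3) K) (x : Kˣ) :
    (aeval M.ι F).1 x = eval₂ (RingHom.id K) (fun l => (M.ι l).1 x) F := by
  rw [← ev_apply, ← AlgHom.comp_apply, comp_aeval]; rfl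

omit [CompleteSpace K] in
lemma aeval_shift {F : MvPolynomial (Fin 3) K} {e : ℕ} (hF : F.IsHomogeneous e) (x : Kˣ) :
    (aeval M.ι F).1 (q * x) = (-(x : K)⁻¹ ^ 3) ^ e * (aeval M.ι F).1 x := by
  simp only [aeval_apply, M.shift, hom_eval₂ hF]

variable [Rich K]

lemma indep (hq : ‖(q : K)‖ < 1) (F : MvPolynomial (Fin 3) K)
    (hinj : ∀ m ∈ F.support, ∀ m' ∈ F.support, m 0 + 3 * m 1 = m' 0 + 3 * m' 1 → m = m')
    (h : aeval M.ι F = 0) : F = 0 := by
  by_contra hF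
  obtain ⟨m0, hm0, hmin⟩ := exists_min_image F.support (fun m => m 0 + 3 * m 1)
    (support_nonempty.2 hF)
  have hpt : pt (1 : Kˣ) ≠ 0 := by
    intro h0
    have := congrFun (congrArg Subtype.val h0) q
    simp only [pt_apply, Units.val_one, ZeroMemClass.coe_zero, Pi.zero_apply,
      sub_eq_zero] at this
    simp [this] at hq
  have e : aeval M.ι F = pt 1 ^ (m0 0 + 3 * m0 1) * ∑ m ∈ F.support,
      algebraMap K _ (coeff m F) * pt 1 ^ (m 0 + 3 * m 1 - (m0 0 + 3 * m0 1)) *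
        ∏ l, M.η l ^ m l := by
    rw [aeval_def, eval₂_eq', mul_sum]
    refine sum_congr rfl fun m hm => ?_
    obtain ⟨b, hb⟩ := Nat.exists_eq_add_of_le (hmin m hm)
    have : pt (1 : Kˣ) ^ m 0 * (pt 1 ^ 3) ^ m 1 = pt 1 ^ (m0 0 + 3 * m0 1) * pt 1 ^ b := by
      rw [← pow_mul, ← pow_add, ← pow_add, hb]
    rw [hb, Nat.add_sub_cancel_left]
    simp only [Fin.prod_univ_three, M.h0, M.h1, M.h2, mul_pow]
    linear_combination (algebraMap K (O1 K) (coeff m F) * M.η 0 ^ m 0 * M.η 1 ^ m 1 *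
      M.η 2 ^ m 2) * this
  rw [e, mul_eq_zero] at h
  have h2 := congrArg (ev 1) (h.resolve_left (pow_ne_zero _ hpt))
  rw [map_sum, map_zero (ev 1), sum_eq_single m0] at h2
  · simp only [map_mul, Nat.sub_self, pow_zero, mul_one, map_prod, map_pow, AlgHom.commutes,
      ev_apply, Algebra.algebraMap_self, RingHom.id_apply] at h2
    exact mul_ne_zero (mem_support_iff.1 hm0)
      (prod_ne_zero_iff.2 fun l _ => pow_ne_zero _ (M.ne l)) h2
  · intro m hm hne
    have h3 : m 0 + 3 * m 1 - (m0 0 + 3 * m0 1) ≠ 0 := fun h4 =>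
      hne (hinj m hm m0 hm0 (by have := hmin m hm; omega))
    simp [h3]
  · exact fun h => absurd hm0 h

lemma vanish9 (hq : ‖(q : K)‖ < 1) (z : Fin 9 → Kˣ) (hz1 : ∀ j, ‖(z j : K)‖ < 1)
    (hinj : Function.Injective z) (hz : ‖(q : K)‖ < ∏ j, ‖(z j : K)‖) (f : O1 K)
    (hf : ∀ x : Kˣ, f.1 (q * x) = (-(x : K)⁻¹ ^ 3) ^ 3 * f.1 x) (h0 : ∀ j, f.1 (z j) = 0) :
    f = 0 := by
  obtain ⟨φ, hφ⟩ := Fintype.prod_dvd_of_coprime (s := fun j => pt (z j))
    (fun i j hij => coprime_pt _ _ (by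
      rw [pt_apply, sub_ne_zero]; exact fun h => hij (hinj (Units.ext h))))
    (fun j => pt_dvd f _ (h0 j))
  by_contra hf0
  have hφ0 : φ ≠ 0 := by rintro rfl; exact hf0 (by rw [hφ, mul_zero])
  have hQ := upos q
  set A := ∏ j, ‖(z j : K)‖ with hA
  have hA0 : 0 < A := hQ.trans hz
  have hle : ∀ j, A ≤ ‖(z j : K)‖ := by
    intro j
    rw [hA, ← mul_prod_erase _ _ (mem_univ j)]
    exact mul_le_of_le_one_right (norm_nonneg _)
      (prod_le_one (fun _ _ => norm_nonneg _) fun k _ => (hz1 k).le)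
  have hA1 : A < 1 := (hle 0).trans_lt (hz1 0)
  have hcore := (zcore φ hφ0 q hq zero_le_one ((one_lt_div hQ).2 hz) A⁻¹ 0
    fun x hx1 hx2 => ?_).2 rfl
  · obtain ⟨N, hN⟩ := hcore
    have h1 : A = ‖(q : K)‖ ^ (-N) := by rw [zpow_neg, ← hN, inv_inv]
    rw [h1] at hz hA1
    nth_rewrite 1 [← zpow_one ‖(q : K)‖] at hz
    rw [← zpow_zero ‖(q : K)‖] at hA1
    rw [zpow_lt_zpow_iff_right_of_lt_one₀ hQ hq] at hz hA1
    omega
  rw [lt_div_iff₀ hQ] at hx2
  have hx := upos x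
  have f1 := congrArg norm (hf x)
  have f2 : ∀ y : Kˣ, ‖f.1 y‖ = (∏ j, ‖(y : K) - z j‖) * ‖φ.1 y‖ := by
    intro y
    rw [hφ, MulMemClass.coe_mul, Pi.mul_apply, norm_mul, ← ev_apply, map_prod, norm_prod]
    simp
  have f3 : ∀ j, ‖(x : K) - z j‖ = ‖(x : K)‖ := fun j => norm_sub_l ((hz1 j).trans hx1)
  have f4 : ∀ j, ‖((q * x : Kˣ) : K) - z j‖ = ‖(z j : K)‖ := fun j => norm_sub_r (by
    rw [Units.val_mul, norm_mul, mul_comm]; exact hx2.trans_le (hle j))
  rw [norm_mul, f2, f2] at f1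
  simp only [f3, f4, ← hA, prod_const, card_univ, Fintype.card_fin, norm_pow, norm_neg,
    norm_inv] at f1
  rw [zpow_zero]
  field_simp at f1 ⊢
  linarith

lemma exists_cubic (hq : ‖(q : K)‖ < 1) (z : Fin 9 → Kˣ) (hz1 : ∀ j, ‖(z j : K)‖ < 1)
    (hinj : Function.Injective z) (hz : ‖(q : K)‖ < ∏ j, ‖(z j : K)‖) :
    ∃ g : MvPolynomial (Fin 3) K, g.IsHomogeneous 3 ∧ g ≠ 0 ∧ aeval M.ι g = 0 := by
  classical
  let S := ↥(finsuppAntidiag (univ : Finset (Fin 3)) 3)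
  let G : (S → K) →ₗ[K] MvPolynomial (Fin 3) K :=
    ∑ m : S, (monomial m.1) ∘ₗ LinearMap.proj m
  have hG : ∀ c, G c = ∑ m : S, monomial m.1 (c m) := fun c => by simp [G]
  let L : (S → K) →ₗ[K] (Fin 9 → K) :=
    LinearMap.pi fun j => ((ev (z j)).comp (aeval M.ι)).toLinearMap ∘ₗ G
  have hcard : Fintype.card S = 10 := by
    rw [Fintype.card_coe, card_finsuppAntidiag_nat_eq_choose]; rfl
  have hker := L.ker_ne_bot_of_finrank_lt (by simp [hcard])
  obtain ⟨c, hc, hc0⟩ := Submodule.exists_mem_ne_zero_of_ne_bot hker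
  have hhom : (G c).IsHomogeneous 3 := by
    rw [hG]
    refine IsHomogeneous.sum _ _ _ fun m _ => isHomogeneous_monomial _ ?_
    rw [Finsupp.degree_eq_sum]
    exact (mem_finsuppAntidiag.1 m.2).1
  refine ⟨G c, hhom, fun h => hc0 ?_, ?_⟩
  · funext m
    have := congrArg (coeff m.1) h
    rw [hG, coeff_sum, sum_eq_single m] at this
    · simpa using this
    · intro m' _ hne
      rw [coeff_monomial, if_neg fun h => hne (Subtype.ext h)]
    · simp
  · exact vanish9 hq z hz1 hinj hz _ (M.aeval_shift hhom) fun j => congrFun hc j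

lemma small_eq_zero (hq : ‖(q : K)‖ < 1) {F : MvPolynomial (Fin 3) K} {e : ℕ}
    (hs : ∀ m ∈ F.support, m 0 + m 1 + m 2 = e ∧ m 0 ≤ 2) (h : aeval M.ι F = 0) : F = 0 :=
  M.indep hq F (fun m hm m' hm' h => by
    have := hs m hm; have := hs m' hm'
    apply ext3 <;> omega) h

lemma cubic_dvd (hq : ‖(q : K)‖ < 1) {g : MvPolynomial (Fin 3) K} (hg : g.IsHomogeneous 3)
    (hg0 : g ≠ 0) (hgι : aeval M.ι g = 0) {e : ℕ} {F : MvPolynomial (Fin 3) K}
    (hF : F.IsHomogeneous (e + 3)) (h : aeval M.ι F = 0) :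
    ∃ G : MvPolynomial (Fin 3) K, G.IsHomogeneous e ∧ F = g * G := by
  classical
  have hlow : ∀ m ∈ g.support, m ≠ Finsupp.single 0 3 → m 0 ≤ 2 := by
    intro m hm hne
    have := deg3 hg hm
    by_contra hc
    apply hne
    apply ext3 <;> simp <;> omega
  have hc : coeff (Finsupp.single 0 3) g ≠ 0 := fun hc => hg0 <|
    M.small_eq_zero hq (fun m hm => ⟨deg3 hg hm, hlow m hm (by
      rintro rfl; exact mem_support_iff.1 hm hc)⟩) hgι
  let U : Submodule K (MvPolynomial (Fin 3) K) :=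
    restrictSupport K {m | m 0 + m 1 + m 2 = e + 3 ∧ m 0 ≤ 2} ⊔
      (homogeneousSubmodule (Fin 3) K e).map (LinearMap.mulLeft K g)
  have key : ∀ t, ∀ m : Fin 3 →₀ ℕ, m 0 + m 1 + m 2 = e + 3 → m 0 ≤ t → ∀ r,
      monomial m r ∈ U := by
    intro t
    induction t with
    | zero =>
      intro m h1 h2 r
      exact Submodule.mem_sup_left ((monomial_mem_restrictSupport K).2 (Or.inl ⟨h1, by omega⟩))
    | succ t ih =>
      intro m h1 h2 r
      by_cases h3 : m 0 ≤ 2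
      · exact Submodule.mem_sup_left ((monomial_mem_restrictSupport K).2 (Or.inl ⟨h1, h3⟩))
      obtain ⟨m', rfl⟩ : ∃ m', m = Finsupp.single 0 3 + m' :=
        exists_add_of_le (Finsupp.single_le_iff.2 (by omega))
      simp only [Finsupp.add_apply, Finsupp.single_eq_same, ne_eq, Fin.reduceEq,
        not_false_eq_true, Finsupp.single_eq_of_ne] at h1 h2
      set r' := (coeff (Finsupp.single 0 3) g)⁻¹ * r with hr'
      have e1 : g * monomial m' r' = monomial (Finsupp.single 0 3 + m') r +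
          ∑ v ∈ g.support.erase (Finsupp.single 0 3), monomial (v + m') (coeff v g * r') := by
        conv_lhs => rw [g.as_sum, ← add_sum_erase _ _ (mem_support_iff.2 hc)]
        rw [add_mul, sum_mul]
        simp only [monomial_mul, hr', mul_inv_cancel_left₀ hc]
      rw [eq_sub_of_add_eq e1.symm]
      refine U.sub_mem (Submodule.mem_sup_right ⟨monomial m' r', ?_, rfl⟩)
        (U.sum_mem fun v hv => ?_)
      · apply isHomogeneous_monomial
        rw [Finsupp.degree_eq_sum, Fin.sum_univ_three]; omega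
      · have a1 := deg3 hg (mem_erase.1 hv).2
        have a2 := hlow v (mem_erase.1 hv).2 (mem_erase.1 hv).1
        apply ih <;> simp only [Finsupp.add_apply] <;> omega
  have hFU : F ∈ U := by
    rw [F.as_sum]
    exact U.sum_mem fun m hm => key _ m (deg3 hF hm) le_rfl _
  obtain ⟨F0, hF0, _, ⟨G, hG, rfl⟩, hsum⟩ := Submodule.mem_sup.1 hFU
  have h0 : F0 = 0 := by
    refine M.small_eq_zero hq (e := e + 3) (fun m hm => (mem_restrictSupport_iff K).1 hF0 hm) ?_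
    have := congrArg (aeval M.ι) hsum
    simpa [hgι, h] using this
  exact ⟨G, hG, by rw [← hsum, h0]; simp⟩

lemma gamma_ne (hq : ‖(q : K)‖ < 1) {g : MvPolynomial (Fin 3) K} (hg : g.IsHomogeneous 3)
    (hg0 : g ≠ 0) (hgι : aeval M.ι g = 0) : aeval M.ι (pderiv 1 g) ≠ 0 := by
  intro h
  have h1 : pderiv 1 g = 0 := M.small_eq_zero hq (e := 2) (fun m hm => by
    have := deg3 (hg.pderiv (i := 1)) hm
    omega) h
  have h2 := congrArg (coeff (Finsupp.single 2 2)) h1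
  rw [coeff_pderiv] at h2
  simp only [ne_eq, Fin.reduceEq, not_false_eq_true, Finsupp.single_eq_of_ne, Nat.cast_zero,
    zero_add, mul_one, coeff_zero] at h2
  refine hg0 (M.indep hq g (fun m hm m' hm' h => ?_) hgι)
  have a1 := deg3 hg hm
  have a2 := deg3 hg hm'
  have b : ∀ v ∈ g.support, ¬ (v 0 = 0 ∧ v 1 = 1) := by
    rintro v hv ⟨b1, b2⟩
    have a3 := deg3 hg hv
    apply mem_support_iff.1 hv
    rw [← h2]
    congr 1
    apply ext3 <;> simp <;> omega
  have := b m hm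
  have := b m' hm'
  apply ext3 <;> omega

/-- the chart `(x, τ) ↦ ι x + τ e₁` -/
noncomputable def χ : MvPolynomial (Fin 3) K →ₐ[K] Polynomial (O1 K) :=
  aeval fun l => Polynomial.C (M.ι l) + if l = 1 then Polynomial.X else 0

omit [CompleteSpace K] [Rich K] in
lemma χ_coeff_zero (F : MvPolynomial (Fin 3) K) : (M.χ F).coeff 0 = aeval M.ι F := by
  induction F using MvPolynomial.induction_on with
  | C a => simp [χ]
  | add p r hp hr => simp [hp, hr]
  | mul_X p l hp =>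
    rw [map_mul, map_mul, Polynomial.mul_coeff_zero, hp]
    congr 1
    simp only [χ, aeval_X]
    split_ifs <;> simp

omit [CompleteSpace K] [Rich K] in
lemma χ_deriv (F : MvPolynomial (Fin 3) K) : (M.χ F).derivative = M.χ (pderiv 1 F) := by
  induction F using MvPolynomial.induction_on with
  | C a => simp [χ]
  | add p r hp hr => simp [hp, hr]
  | mul_X p l hp =>
    rw [map_mul, Polynomial.derivative_mul, hp, pderiv_mul, map_add, map_mul, map_mul]
    congr 2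
    by_cases hl : l = 1
    · subst hl; simp [χ]
    · simp [χ, hl, pderiv_X_of_ne hl]

theorem coeff_form (hq : ‖(q : K)‖ < 1) {g : MvPolynomial (Fin 3) K} (hg : g.IsHomogeneous 3)
    (hg0 : g ≠ 0) (hgι : aeval M.ι g = 0) (l : ℕ) : ∀ (d : ℕ) (F : MvPolynomial (Fin 3) K),
    F.IsHomogeneous d → Polynomial.X ^ l ∣ M.χ F → ∃ f : O1 K,
      (M.χ F).coeff l = aeval M.ι (pderiv 1 g) ^ l * f ∧ ∀ x : Kˣ,
        f.1 (q * x) * (-(x : K)⁻¹ ^ 3) ^ (3 * l) = (-(x : K)⁻¹ ^ 3) ^ d * f.1 x := by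
  induction l with
  | zero =>
    intro d F hF _
    exact ⟨aeval M.ι F, by simp [χ_coeff_zero], fun x => by simp [M.aeval_shift hF]⟩
  | succ l ih =>
    intro d F hF hd
    have h0 : aeval M.ι F = 0 := by
      rw [← χ_coeff_zero]
      exact Polynomial.X_pow_dvd_iff.1 hd 0 (Nat.succ_pos l)
    by_cases hd3 : d < 3
    · have : F = 0 := M.small_eq_zero hq (e := d) (fun m hm => by
        have := deg3 hF hm
        omega) h0
      exact ⟨0, by simp [this], fun x => by simp⟩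
    obtain ⟨e, rfl⟩ : ∃ e, d = e + 3 := ⟨d - 3, by omega⟩
    obtain ⟨G, hG, rfl⟩ := M.cubic_dvd hq hg hg0 hgι hF h0
    obtain ⟨g1, hg1⟩ : Polynomial.X ∣ M.χ g := Polynomial.X_dvd_iff.2 (by rw [χ_coeff_zero, hgι])
    have hγ : g1.coeff 0 = aeval M.ι (pderiv 1 g) := by
      rw [← χ_coeff_zero, ← χ_deriv, hg1, Polynomial.coeff_derivative, Polynomial.coeff_X_mul]
      simp
    rw [map_mul, hg1, pow_succ', mul_assoc, mul_dvd_mul_iff_left Polynomial.X_ne_zero] at hd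
    have hd2 := Polynomial.prime_X.pow_dvd_of_dvd_mul_left l (fun h => M.gamma_ne hq hg hg0 hgι
      (by rw [← hγ]; exact Polynomial.X_dvd_iff.1 h)) hd
    obtain ⟨f, hf1, hf2⟩ := ih e G hG hd2
    obtain ⟨G1, hG1⟩ := hd2
    refine ⟨f, ?_, fun x => ?_⟩
    · rw [hG1] at hf1
      have e1 := Polynomial.coeff_X_pow_mul G1 l 0
      have e2 := Polynomial.coeff_X_pow_mul (g1 * G1) l 0
      rw [zero_add] at e1 e2
      rw [map_mul, hg1, hG1, mul_assoc, Polynomial.coeff_X_mul, mul_left_comm, e2,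
        Polynomial.mul_coeff_zero, hγ, ← e1, hf1]
      ring
    · rw [mul_add, pow_add, ← mul_assoc, hf2]; ring

end Emb

end Pool.Agent.P.MP_3285df_ag
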