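import Mathlib

/-! Everywhere convergent Laurent series in one and two variables over a complete ultrametric
field, viewed as functions on the torus. -/

namespace Pool.Agent.P.MP_3285df_ag

open Filter Topology

variable {K : Type*} [NormedField K] [IsUltrametricDist K] [CompleteSpace K]

/-- Laurent monomial on the two dimensional torus -/
def mono (e : ℤ × ℤ) (p : Kˣ × Kˣ) : K := ((p.1 ^ e.1 * p.2 ^ e.2 : Kˣ) : K)

/-- functions given by an everywhere convergent sum of monomials -/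
def IsEnt (F : Kˣ × Kˣ → K) : Prop :=
  ∃ (ι : Type) (b : ι → K) (e : ι → ℤ × ℤ), ∀ p, HasSum (fun i => b i * mono (e i) p) (F p)

omit [IsUltrametricDist K] [CompleteSpace K] in
lemma mono_add (e e' : ℤ × ℤ) (p : Kˣ × Kˣ) : mono (e + e') p = mono e p * mono e' p := by
  simp only [mono, Prod.fst_add, Prod.snd_add, zpow_add, Units.val_mul]; ring

omit [IsUltrametricDist K] [CompleteSpace K] in
lemma isEnt_mono (c : K) (e : ℤ × ℤ) : IsEnt (fun p => c * mono e p) :=
  ⟨Unit, fun _ => c, fun _ => e, fun p => by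
    simp⟩

omit [CompleteSpace K] in
lemma nonarchRing : NonarchimedeanRing K :=
  ⟨fun U hU => NonarchimedeanAddGroup.is_nonarchimedean U hU⟩

omit [CompleteSpace K] in
lemma IsEnt.mul {F G : Kˣ × Kˣ → K} (hF : IsEnt F) (hG : IsEnt G) : IsEnt (F * G) := by
  obtain ⟨ι, b, e, h⟩ := hF
  obtain ⟨ι', b', e', h'⟩ := hG
  have := nonarchRing (K := K)
  refine ⟨ι × ι', fun i => b i.1 * b' i.2, fun i => e i.1 + e' i.2, fun p => ?_⟩
  have := (h p).mul_of_nonarchimedean (h' p)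
  convert this using 2 with i
  · rw [mono_add]; ring
  · rfl

omit [IsUltrametricDist K] [CompleteSpace K] in
lemma IsEnt.add {F G : Kˣ × Kˣ → K} (hF : IsEnt F) (hG : IsEnt G) : IsEnt (F + G) := by
  obtain ⟨ι, b, e, h⟩ := hF
  obtain ⟨ι', b', e', h'⟩ := hG
  exact ⟨ι ⊕ ι', Sum.elim b b', Sum.elim e e', fun p => HasSum.sum (h p) (h' p)⟩

variable (K) in
/-- the ring of entire functions on the two dimensional torus -/
def O2 : Subalgebra K (Kˣ × Kˣ → K) where
  carrier := {F | IsEnt F}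
  mul_mem' := IsEnt.mul
  add_mem' := IsEnt.add
  algebraMap_mem' c := by
    have := isEnt_mono c (0, 0)
    simpa [mono] using! this

variable (K) in
/-- the ring of entire functions on the one dimensional torus -/
def O1 : Subalgebra K (Kˣ → K) where
  carrier := {f | IsEnt (fun p => f p.2)}
  mul_mem' := IsEnt.mul
  add_mem' := IsEnt.add
  algebraMap_mem' c := (O2 K).algebraMap_mem c

omit [IsUltrametricDist K] [CompleteSpace K] in
lemma IsEnt.comp {F : Kˣ × Kˣ → K} (hF : IsEnt F) (c1 c2 : Kˣ) (a b c d : ℤ) :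
    IsEnt (fun p => F (c1 * p.1 ^ a * p.2 ^ b, c2 * p.1 ^ c * p.2 ^ d)) := by
  obtain ⟨ι, β, e, h⟩ := hF
  refine ⟨ι, fun i => β i * ((c1 ^ (e i).1 * c2 ^ (e i).2 : Kˣ) : K),
    fun i => (a * (e i).1 + c * (e i).2, b * (e i).1 + d * (e i).2), fun p => ?_⟩
  convert h (c1 * p.1 ^ a * p.2 ^ b, c2 * p.1 ^ c * p.2 ^ d) using 2 with i
  simp only [mono, mul_assoc, ← Units.val_mul]
  congr 2
  simp only [mul_zpow, zpow_add, zpow_mul]
  simp only [mul_left_comm, mul_assoc]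

/-- pull back along a map -/
def pb {S T : Type*} (A : Subalgebra K (T → K)) (B : Subalgebra K (S → K)) (φ : S → T)
    (h : ∀ F ∈ A, (fun s => F (φ s)) ∈ B) : A →ₐ[K] B where
  toFun F := ⟨fun s => F.1 (φ s), h _ F.2⟩
  map_one' := rfl
  map_mul' _ _ := rfl
  map_zero' := rfl
  map_add' _ _ := rfl
  commutes' _ := rfl

/-- `f ↦ f (c X^a Y^b)` -/
def inc (c : Kˣ) (a b : ℤ) : O1 K →ₐ[K] O2 K :=
  pb _ _ (fun p => c * p.1 ^ a * p.2 ^ b) fun _ hF => IsEnt.comp hF 1 c 0 0 a b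

/-- `F ↦ F (c1 x^a, c2 x^b)` -/
def res (c1 c2 : Kˣ) (a b : ℤ) : O2 K →ₐ[K] O1 K :=
  pb _ _ (fun x => (c1 * x ^ a, c2 * x ^ b)) fun _ hF => by
    have := IsEnt.comp hF c1 c2 0 a 0 b
    simpa using! this

/-- `F ↦ F (c1 X, c2 Y)` -/
def dil2 (c1 c2 : Kˣ) : O2 K →ₐ[K] O2 K :=
  pb _ _ (fun p => (c1 * p.1, c2 * p.2)) fun _ hF => by
    have := IsEnt.comp hF c1 c2 1 0 0 1
    simpa using! this

/-- `f ↦ f (c x)` -/
def dil1 (c : Kˣ) : O1 K →ₐ[K] O1 K :=
  pb _ _ (fun x => c * x) fun _ hF => by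
    have := IsEnt.comp hF 1 c 0 0 0 1
    simpa using! this

/-- evaluation at a point -/
def ev (x : Kˣ) : O1 K →ₐ[K] K where
  toFun f := f.1 x
  map_one' := rfl
  map_mul' _ _ := rfl
  map_zero' := rfl
  map_add' _ _ := rfl
  commutes' _ := rfl

/-- monomials as elements of the ring -/
def mon (a b : ℤ) : O2 K := ⟨fun p => mono (a, b) p, by simpa using! isEnt_mono (1 : K) (a, b)⟩

/-- powers of the coordinate in one variable -/
def xp (a : ℤ) : O1 K := ⟨fun x => ((x ^ a : Kˣ) : K), by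
  have := isEnt_mono (1 : K) (0, a)
  simpa [mono] using! this⟩

omit [CompleteSpace K] in
@[simp] lemma inc_apply (c : Kˣ) (a b : ℤ) (f : O1 K) (p : Kˣ × Kˣ) :
    (inc c a b f).1 p = f.1 (c * p.1 ^ a * p.2 ^ b) := rfl
omit [CompleteSpace K] in
@[simp] lemma res_apply (c1 c2 : Kˣ) (a b : ℤ) (F : O2 K) (x : Kˣ) :
    (res c1 c2 a b F).1 x = F.1 (c1 * x ^ a, c2 * x ^ b) := rfl
omit [CompleteSpace K] in
@[simp] lemma dil2_apply (c1 c2 : Kˣ) (F : O2 K) (p : Kˣ × Kˣ) :
    (dil2 c1 c2 F).1 p = F.1 (c1 * p.1, c2 * p.2) := rfl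
omit [CompleteSpace K] in
@[simp] lemma dil1_apply (c : Kˣ) (f : O1 K) (x : Kˣ) : (dil1 c f).1 x = f.1 (c * x) := rfl
omit [CompleteSpace K] in
@[simp] lemma ev_apply (x : Kˣ) (f : O1 K) : ev x f = f.1 x := rfl
omit [CompleteSpace K] in
@[simp] lemma mon_apply (a b : ℤ) (p : Kˣ × Kˣ) :
    (mon a b : O2 K).1 p = (p.1 : K) ^ a * (p.2 : K) ^ b := by simp [mon, mono]
omit [CompleteSpace K] in
@[simp] lemma xp_apply (a : ℤ) (x : Kˣ) : (xp a : O1 K).1 x = (x : K) ^ a := by simp [xp]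

lemma tele {M : Type*} [AddCommGroup M] (g : ℤ → M) (a b : ℤ) (h : a ≤ b) :
    ∑ l ∈ Finset.Ico a b, (g (l + 1) - g l) = g b - g a := by
  induction b, h using Int.le_induction with
  | base => simp
  | succ b hb ih =>
    rw [← Finset.insert_Ico_right_eq_Ico_add_one hb, Finset.sum_insert (by simp), ih]
    abel

lemma geom {L : Type*} [Field L] (β : ℤ) (W w : L) (hW : W ≠ 0) (hw : w ≠ 0) :
    W ^ β - w ^ β = (W - w) * ∑ l ∈ Finset.Ico (min 0 β) (max 0 β),
      (if 0 ≤ β then 1 else -1) * (w ^ (β - 1 - l) * W ^ l) := by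
  have key : ∀ l : ℤ, (W - w) * (w ^ (β - 1 - l) * W ^ l)
      = w ^ (β - (l + 1)) * W ^ (l + 1) - w ^ (β - l) * W ^ l := by
    intro l
    have h1 : w ^ (β - l) = w ^ (β - 1 - l) * w := by
      rw [← zpow_add_one₀ hw]; congr 1; ring
    have h2 : β - (l + 1) = β - 1 - l := by ring
    rw [h1, h2, zpow_add_one₀ hW]; ring
  have ht := tele (fun l => w ^ (β - l) * W ^ l) (min 0 β) (max 0 β) min_le_max
  rw [← Finset.mul_sum, mul_left_comm, Finset.mul_sum]
  simp only [key]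
  rw [ht]
  split_ifs with h
  · simp [min_eq_left h, max_eq_right h]
  · have h' : β ≤ 0 := by omega
    simp [min_eq_right h', max_eq_left h']

lemma geom_bound (β l : ℤ) (hl : l ∈ Finset.Ico (min 0 β) (max 0 β)) (x y : ℝ) (hx : 0 < x)
    (hy : 0 < y) : x ^ (β - 1 - l) * y ^ l ≤ x ^ (β - 1) + y ^ (β - 1) := by
  rw [Finset.mem_Ico] at hl
  have hx1 : x ^ (β - 1) = x ^ (β - 1 - l) * x ^ l := by rw [← zpow_add₀ hx.ne']; congr 1; ring
  have hy1 : y ^ (β - 1) = y ^ (β - 1 - l) * y ^ l := by rw [← zpow_add₀ hy.ne']; congr 1; ring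
  have p1 : 0 < x ^ (β - 1) := zpow_pos hx _
  have p2 : 0 < y ^ (β - 1) := zpow_pos hy _
  have neg : ∀ {a b : ℝ} {n : ℤ}, 0 < a → a ≤ b → n ≤ 0 → b ^ n ≤ a ^ n := by
    intro a b n ha hab hn
    have := zpow_le_zpow_left₀ (n := -n) (by omega) ha.le hab
    rw [zpow_neg, zpow_neg] at this
    exact (inv_le_inv₀ (zpow_pos ha _) (zpow_pos (ha.trans_le hab) _)).1 this
  rcases le_total 0 β with h | h
  · rw [min_eq_left h, max_eq_right h] at hl
    rcases le_total x y with hxy | hxy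
    · have : x ^ (β - 1 - l) ≤ y ^ (β - 1 - l) := zpow_le_zpow_left₀ (by omega) hx.le hxy
      have := mul_le_mul_of_nonneg_right this (zpow_pos hy l).le
      linarith
    · have : y ^ l ≤ x ^ l := zpow_le_zpow_left₀ (by omega) hy.le hxy
      have := mul_le_mul_of_nonneg_left this (zpow_pos hx (β - 1 - l)).le
      linarith
  · rw [min_eq_right h, max_eq_left h] at hl
    rcases le_total x y with hxy | hxy
    · have : y ^ l ≤ x ^ l := neg hx hxy (by omega)
      have := mul_le_mul_of_nonneg_left this (zpow_pos hx (β - 1 - l)).le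
      linarith
    · have : x ^ (β - 1 - l) ≤ y ^ (β - 1 - l) := neg hy hxy (by omega)
      have := mul_le_mul_of_nonneg_right this (zpow_pos hy l).le
      linarith

/-- division by `Y - c X^a` -/
theorem IsEnt.div {F : Kˣ × Kˣ → K} (hF : IsEnt F) (c : Kˣ) (a : ℤ) :
    ∃ G, IsEnt G ∧ ∀ p, F p - F (p.1, c * p.1 ^ a)
      = ((p.2 : K) - ((c * p.1 ^ a : Kˣ) : K)) * G p := by
  obtain ⟨ι, b, e, h⟩ := hF
  let S : ι → Finset ℤ := fun i => Finset.Ico (min 0 (e i).2) (max 0 (e i).2)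
  let b' : (Σ i, S i) → K := fun j => b j.1 * (if 0 ≤ (e j.1).2 then 1 else -1) *
    ((c ^ ((e j.1).2 - 1 - j.2) : Kˣ) : K)
  let e' : (Σ i, S i) → ℤ × ℤ := fun j => ((e j.1).1 + a * ((e j.1).2 - 1 - j.2), j.2)
  have hterm : ∀ p : Kˣ × Kˣ, ∀ j, b' j * mono (e' j) p = b j.1 * (p.1 : K) ^ (e j.1).1 *
      ((if 0 ≤ (e j.1).2 then 1 else -1) *
        ((((c * p.1 ^ a : Kˣ) : K)) ^ ((e j.1).2 - 1 - j.2) * (p.2 : K) ^ (j.2 : ℤ))) := by
    intro p j
    simp only [b', e', mono, Units.val_mul, Units.val_zpow_eq_zpow_val, mul_zpow,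
      zpow_add₀ p.1.ne_zero, zpow_mul]
    ring
  have hsum : ∀ p, Summable (fun j => b' j * mono (e' j) p) := by
    intro p
    apply NonarchimedeanAddGroup.summable_of_tendsto_cofinite_zero
    set w : Kˣ := c * p.1 ^ a with hw
    have t1 := (h p).summable.tendsto_cofinite_zero.norm
    have t2 := (h (p.1, w)).summable.tendsto_cofinite_zero.norm
    have t3 := (t2.mul_const (‖(w : K)‖⁻¹)).add (t1.mul_const (‖(p.2 : K)‖⁻¹))
    simp only [norm_zero, zero_mul, add_zero] at t3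
    have hfst : Tendsto (Sigma.fst : (Σ i, S i) → ι) cofinite cofinite := by
      apply Filter.Tendsto.cofinite_of_finite_preimage_singleton
      intro i
      have : (Sigma.fst ⁻¹' {i} : Set (Σ i, S i)) = Set.range (Sigma.mk i) := by
        ext ⟨j, l⟩
        constructor
        · rintro rfl; exact ⟨l, rfl⟩
        · rintro ⟨l', hl⟩; cases hl; rfl
      rw [this]
      exact (Set.finite_range _).to_subtype
    rw [tendsto_zero_iff_norm_tendsto_zero]
    refine squeeze_zero (fun _ => norm_nonneg _) (fun j => ?_) (t3.comp hfst)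
    have hb := geom_bound (e j.1).2 j.2 j.2.2 ‖(w : K)‖ ‖(p.2 : K)‖
      (norm_pos_iff.2 w.ne_zero) (norm_pos_iff.2 p.2.ne_zero)
    rw [hterm]
    have he : ‖(if 0 ≤ (e j.1).2 then 1 else -1 : K)‖ = 1 := by split_ifs <;> simp
    simp only [Function.comp, mono, norm_mul, he, one_mul, norm_zpow, Units.val_mul,
      Units.val_zpow_eq_zpow_val, ← hw]
    rw [zpow_sub_one₀ (norm_pos_iff.2 w.ne_zero).ne' (e j.1).2,
      zpow_sub_one₀ (norm_pos_iff.2 p.2.ne_zero).ne' (e j.1).2] at hb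
    have := mul_le_mul_of_nonneg_left hb
      (mul_nonneg (norm_nonneg (b j.1)) (zpow_nonneg (norm_nonneg (p.1 : K)) (e j.1).1))
    refine this.trans (le_of_eq ?_)
    ring
  refine ⟨fun p => ∑' j, b' j * mono (e' j) p, ⟨_, b', e', fun p => (hsum p).hasSum⟩, fun p => ?_⟩
  set w : Kˣ := c * p.1 ^ a with hw
  have h1 := ((hsum p).hasSum.mul_left ((p.2 : K) - (w : K))).sigma
    (g := fun i => b i * mono (e i) p - b i * mono (e i) (p.1, w)) (fun i => by
      convert hasSum_fintype _ using 1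
      simp only [hterm, ← hw]
      rw [Finset.sum_coe_sort (S i) (fun l => ((p.2 : K) - (w : K)) * (b i * (p.1 : K) ^ (e i).1 *
        ((if 0 ≤ (e i).2 then 1 else -1) * ((w : K) ^ ((e i).2 - 1 - l) * (p.2 : K) ^ l))))]
      have hg := geom (e i).2 (p.2 : K) (w : K) p.2.ne_zero w.ne_zero
      have : ∀ l : ℤ, ((p.2 : K) - (w : K)) * (b i * (p.1 : K) ^ (e i).1 *
          ((if 0 ≤ (e i).2 then 1 else -1) * ((w : K) ^ ((e i).2 - 1 - l) * (p.2 : K) ^ l))) =
          (b i * (p.1 : K) ^ (e i).1) * (((p.2 : K) - (w : K)) *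
          ((if 0 ≤ (e i).2 then 1 else -1) * ((w : K) ^ ((e i).2 - 1 - l) * (p.2 : K) ^ l))) := by
        intro l; ring
      simp only [this]
      rw [← Finset.mul_sum, ← Finset.mul_sum, ← hg]
      simp only [mono, Units.val_mul, Units.val_zpow_eq_zpow_val]
      ring)
  exact ((h p).sub (h (p.1, w))).unique h1

end Pool.Agent.P.MP_3285df_ag
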