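import Mathlib

/-! A complete ultrametric field over `k` in which every positive real number is a norm. -/

namespace Pool.Agent.P.MP_3285df_ag

open HahnSeries

universe u

variable (k : Type u) [Field k]

open Classical in
/-- the absolute value `exp (-order)` on Hahn series with real exponents -/
noncomputable def hahnAbs : AbsoluteValue (HahnSeries ℝ k) ℝ where
  toFun f := if f = 0 then 0 else Real.exp (-f.order)
  map_mul' f g := by
    by_cases hf : f = 0
    · simp [hf]
    by_cases hg : g = 0
    · simp [hg]
    simp only [hf, hg, mul_ne_zero hf hg, if_false, order_mul hf hg, neg_add, Real.exp_add]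
  nonneg' f := by
    by_cases hf : f = 0
    · simp [hf]
    · simp only [hf, if_false]; exact (Real.exp_pos _).le
  eq_zero' f := by
    by_cases hf : f = 0
    · simp [hf]
    · simp only [hf, if_false, iff_false]; exact (Real.exp_pos _).ne'
  add_le' f g := by
    by_cases hf : f = 0
    · simp [hf]
    by_cases hg : g = 0
    · simp [hg]
    by_cases hfg : f + g = 0
    · simp only [hfg, hf, hg, if_true, if_false]; positivity
    simp only [hf, hg, hfg, if_false]
    have h := min_order_le_order_add hfg
    rcases min_le_iff.1 h with h | h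
    · have := Real.exp_le_exp.2 (neg_le_neg h)
      linarith [Real.exp_pos (-g.order)]
    · have := Real.exp_le_exp.2 (neg_le_neg h)
      linarith [Real.exp_pos (-f.order)]

lemma hahnAbs_single (r : ℝ) (c : k) (hc : c ≠ 0) :
    hahnAbs k (single r c) = Real.exp (-r) := by
  have h : (single r c : HahnSeries ℝ k) ≠ 0 := single_ne_zero hc
  simp only [hahnAbs, AbsoluteValue.coe_mk, MulHom.coe_mk, h, if_false, order_single hc]

lemma hahnAbs_C_le (c : k) : hahnAbs k (HahnSeries.C c) ≤ 1 := by
  by_cases hc : c = 0
  · simp [hc]
  · rw [HahnSeries.C_apply, hahnAbs_single k 0 c hc]; simp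

theorem exists_field : ∃ (K : Type u) (_ : NormedField K) (_ : IsUltrametricDist K)
    (_ : CompleteSpace K) (_ : k →+* K), ∀ r : ℝ, 0 < r → ∃ x : K, ‖x‖ = r := by
  let v := hahnAbs k
  let φ : HahnSeries ℝ k →+* v.Completion :=
    (UniformSpace.Completion.coeRingHom).comp (WithAbs.equiv v).symm.toRingHom
  have hφ : ∀ f, ‖φ f‖ = v f := by
    intro f
    change ‖((WithAbs.toAbs v f : WithAbs v) : v.Completion)‖ = v f
    rw [UniformSpace.Completion.norm_coe]
    rfl
  refine ⟨v.Completion, inferInstance, ?_, inferInstance, φ.comp HahnSeries.C, ?_⟩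
  · apply IsUltrametricDist.isUltrametricDist_of_forall_norm_natCast_le_one
    intro n
    have : (n : v.Completion) = φ (HahnSeries.C (n : k)) := by simp
    rw [this, hφ]
    exact hahnAbs_C_le k _
  · intro r hr
    refine ⟨φ (single (-Real.log r) 1), ?_⟩
    rw [hφ, hahnAbs_single k _ _ one_ne_zero, neg_neg, Real.exp_log hr]

end Pool.Agent.P.MP_3285df_ag
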