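import Pool.Agent.P.MP_3285df_ag.Limit
import Pool.Agent.P.MP_3285df_ag.Field

/-! A special configuration exists in every characteristic; passage to general points. -/

namespace Pool.Agent.P.MP_3285df_ag

open MvPolynomial Finset

lemma exists_radii {B : Set ℝ} (hB : B.Countable) (L : ℝ) : ∃ ρ : Fin 10 → ℝ,
    Function.Injective ρ ∧ (∀ k, 1 / 2 < ρ k ∧ ρ k < 1 ∧ ρ k ∉ B) ∧
    ∀ (e : Fin 10 → ℤ) (N : ℤ), ∑ k, (e k : ℝ) * Real.log (ρ k) = N * L → e 1 = 0 := by
  have h1 : ∀ (B' : Set ℝ), B'.Countable → ∀ k : Fin 10, ∃ r : ℝ,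
      1 / 2 + (k : ℕ) / 20 < r ∧ r < 1 / 2 + ((k : ℕ) + 1) / 20 ∧ r ∉ B' :=
    fun B' hB' k => exists_avoid hB' (by linarith)
  choose r hr using h1 B hB
  have hB2 : (⋃ e : Fin 10 → ℤ, ⋃ N : ℤ, {x : ℝ | 0 < x ∧ e 1 ≠ 0 ∧
      (e 1 : ℝ) * Real.log x + ∑ k ∈ univ.erase 1, (e k : ℝ) * Real.log (r k) = N * L}).Countable := by
    refine Set.countable_iUnion fun e => Set.countable_iUnion fun N => ?_
    apply Set.Subsingleton.countable
    rintro x ⟨hx, he, hx'⟩ y ⟨hy, -, hy'⟩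
    have he' : (e 1 : ℝ) ≠ 0 := Int.cast_ne_zero.2 he
    exact Real.log_injOn_pos hx hy (mul_left_cancel₀ he' (by linarith))
  obtain ⟨r1, hr1⟩ := h1 _ (hB.union hB2) 1
  have hw : ∀ k : Fin 10, 1 / 2 + ((k : ℕ) : ℝ) / 20 < Function.update r 1 r1 k ∧
      Function.update r 1 r1 k < 1 / 2 + ((k : ℕ) + 1 : ℝ) / 20 ∧ Function.update r 1 r1 k ∉ B := by
    intro k
    by_cases hk : k = 1
    · subst hk
      rw [Function.update_self]
      exact ⟨hr1.1, hr1.2.1, fun h => hr1.2.2 (Or.inl h)⟩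
    · rw [Function.update_of_ne hk]; exact hr k
  refine ⟨Function.update r 1 r1, StrictMono.injective fun a b hab => ?_, fun k => ?_,
    fun e N h => ?_⟩
  · have : ((a : ℕ) + 1 : ℝ) ≤ (b : ℕ) := by exact_mod_cast hab
    linarith [(hw a).2.1, (hw b).1]
  · have h2 : ((k : ℕ) + 1 : ℝ) ≤ 10 := by exact_mod_cast k.2
    have h3 : (0 : ℝ) ≤ (k : ℕ) := Nat.cast_nonneg _
    exact ⟨by linarith [(hw k).1], by linarith [(hw k).2.1], (hw k).2.2⟩
  · by_contra he
    refine hr1.2.2 (Or.inr ?_)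
    simp only [Set.mem_iUnion]
    refine ⟨e, N, by linarith [hr1.1, (Nat.cast_nonneg ((1 : Fin 10) : ℕ) : (0 : ℝ) ≤ _)], he, ?_⟩
    rw [← h, ← add_sum_erase _ _ (mem_univ 1), Function.update_self]
    exact congrArg _
      (sum_congr rfl fun k hk => by rw [Function.update_of_ne (mem_erase.1 hk).1])

theorem special_field {K : Type*} [NormedField K] [IsUltrametricDist K] [CompleteSpace K]
    [Rich K] : ∃ p : Fin 10 → Fin 3 → Polynomial K, (∀ i, p i 2 = 1) ∧ ∀ n, 0 < n →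
      ∀ F : MvPolynomial (Fin 3) (Polynomial K), F.IsHomogeneous (111 * n) →
      (∀ i, shiftP (p i) F ∈ idealOfVars (Fin 3) (Polynomial K) ^ mu n i) → F = 0 := by
  obtain ⟨q0, hq0⟩ := Rich.ex (K := K) ((1 / 2) ^ 10) (by positivity)
  obtain ⟨α, hα⟩ := Rich.ex (K := K) (1 / 2) (by positivity)
  obtain ⟨T⟩ := exists_Th q0 (by rw [hq0]; norm_num)
  set q := q0 ^ 2 with hqdef
  have hQ : ‖(q : K)‖ = ((1 / 2) ^ 10) ^ 2 := by
    rw [hqdef, Units.val_pow_eq_pow_val, norm_pow, hq0]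
  have hq : ‖(q : K)‖ < 1 := by rw [hQ]; norm_num
  obtain ⟨M⟩ := exists_Emb hq T α (by rw [hα]; norm_num) (by rw [hα, hQ]; norm_num)
  have hpts : ∀ B : Set ℝ, B.Countable → ∃ u : Fin 10 → Kˣ,
      (Function.Injective fun k => ‖(u k : K)‖) ∧
      (∀ k, 1 / 2 < ‖(u k : K)‖ ∧ ‖(u k : K)‖ < 1 ∧ ‖(u k : K)‖ ∉ B) ∧
      ∀ (e : Fin 10 → ℤ) (N : ℤ),
        ∑ k, (e k : ℝ) * Real.log ‖(u k : K)‖ = N * Real.log ‖(q : K)‖ → e 1 = 0 := by
    intro B hB
    obtain ⟨ρ, h1, h2, h3⟩ := exists_radii hB (Real.log ‖(q : K)‖)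
    choose u hu using fun k => Rich.ex (K := K) (ρ k) (by linarith [(h2 k).1])
    exact ⟨u, by simpa only [hu] using h1, by simpa only [hu] using h2,
      by simpa only [hu] using h3⟩
  obtain ⟨z, hz1, hz2, -⟩ := hpts ∅ Set.countable_empty
  obtain ⟨g, hg, hg0, hgι⟩ := M.exists_cubic hq (fun j => z j.succ) (fun j => (hz2 _).2.1)
    (fun i j h => Fin.succ_injective _ (hz1 (by simp only at h ⊢; rw [h]))) (by
      have := prod_le_prod (s := univ) (f := fun _ : Fin 9 => (1 / 2 : ℝ))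
        (g := fun j : Fin 9 => ‖(z j.succ : K)‖) (fun _ _ => by norm_num)
        (fun j _ => (hz2 _).1.le)
      rw [prod_const, card_univ, Fintype.card_fin] at this
      refine lt_of_lt_of_le ?_ this
      rw [hQ]; norm_num)
  obtain ⟨B1, hB1, h1⟩ := good_ne _ (M.gamma_ne hq hg hg0 hgι)
  obtain ⟨B2, hB2, h2⟩ := good_ne (M.ι 2) (fun h => M.ne 2 (by rw [← M.h2, h]; rfl))
  obtain ⟨u, hu1, hu2, hu3⟩ := hpts _ (hB1.union hB2)
  have hB : ∀ k, (M.ι 2).1 (u k) ≠ 0 := fun k => h2 _ fun h => (hu2 k).2.2 (Or.inr h)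
  refine ⟨_, fun i => ?_, M.special hq T hg hg0 hgι u (fun k => (hu2 k).2.1) hu1 ?_
    (fun k => h1 _ fun h => (hu2 k).2.2 (Or.inl h)) hB hu3⟩
  · simp only [pnt, Fin.reduceEq, false_and, if_false, add_zero]
    rw [← Polynomial.C_mul, inv_mul_cancel₀ (hB i), Polynomial.C_1]
  · have := prod_lt_prod_of_nonempty (s := univ) (f := fun _ : Fin 10 => (1 / 2 : ℝ))
        (g := fun j : Fin 10 => ‖(u j : K)‖) (fun _ _ => by norm_num)
        (fun j _ => (hu2 _).1) univ_nonempty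
    rw [prod_const, card_univ, Fintype.card_fin] at this
    rw [hQ, Units.coe_prod, norm_prod]
    exact pow_lt_pow_left₀ this (by positivity) two_ne_zero

lemma exists_minor {R ι κ : Type*} [CommRing R] [IsDomain R] [Fintype κ] [DecidableEq κ]
    (A : ι → κ → R) (hA : ∀ c : κ → R, (∀ i, ∑ j, A i j * c j = 0) → c = 0) :
    ∃ r : κ → ι, (Matrix.of fun i j => A (r i) j).det ≠ 0 := by
  let L := FractionRing R
  let v : ι → κ → L := fun i j => algebraMap R L (A i j)
  obtain ⟨κ', a, -, hsp, hli⟩ := exists_linearIndependent' L v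
  have htop : ⊤ ≤ Submodule.span L (Set.range (v ∘ a)) := by
    rw [hsp, top_le_iff]
    by_contra hne
    obtain ⟨f, hf0, hf⟩ := Submodule.exists_le_ker_of_lt_top _ (lt_top_iff_ne_top.2 hne)
    obtain ⟨b, hb⟩ := IsLocalization.exist_integer_multiples_of_finite (nonZeroDivisors R)
      (fun j => f (Pi.single j 1))
    choose c hc using hb
    have hb0 : algebraMap R L b ≠ 0 :=
      IsFractionRing.to_map_ne_zero_of_mem_nonZeroDivisors b.2
    have hc0 := hA c fun i => by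
      apply IsFractionRing.injective R L
      have h1 : f (v i) = 0 := hf (Submodule.subset_span ⟨i, rfl⟩)
      rw [LinearMap.pi_apply_eq_sum_univ] at h1
      rw [map_sum, map_zero, ← mul_zero (algebraMap R L b), ← h1, mul_sum]
      refine sum_congr rfl fun j _ => ?_
      have e : (fun j' => if j = j' then (1 : L) else 0) = Pi.single j 1 := by
        ext j'; simp [Pi.single_apply, eq_comm]
      rw [map_mul, hc j, e, Algebra.smul_def, smul_eq_mul]
      ring
    apply hf0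
    apply LinearMap.pi_ext'
    intro j
    ext
    have := hc j
    rw [hc0, Pi.zero_apply, map_zero, Algebra.smul_def] at this
    simpa using (mul_eq_zero.1 this.symm).resolve_left hb0
  let e : κ ≃ κ' := (Pi.basisFun L κ).indexEquiv (Module.Basis.mk hli htop)
  refine ⟨a ∘ e, fun h => ?_⟩
  have h2 : IsUnit (Matrix.of fun i j => v (a (e i)) j) :=
    Matrix.linearIndependent_rows_iff_isUnit.1 (hli.comp e e.injective)
  rw [Matrix.isUnit_iff_isUnit_det, isUnit_iff_ne_zero] at h2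
  apply h2
  have h3 := (algebraMap R L).map_det (Matrix.of fun i j => A ((a ∘ e) i) j)
  rw [h, map_zero] at h3
  exact h3.symm

lemma coeff_shiftP_map {R S : Type*} [CommRing R] [CommRing S] (φ : R →+* S) (p : Fin 3 → R)
    (F : MvPolynomial (Fin 3) R) (e : Fin 3 →₀ ℕ) :
    φ (coeff e (shiftP p F)) = coeff e (shiftP (fun l => φ (p l)) (map φ F)) := by
  rw [← coeff_map]
  congr 1
  induction F using MvPolynomial.induction_on with
  | C a => simp [shiftP]
  | add p r hp hr => simp [hp, hr]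
  | mul_X r l hp =>
    rw [map_mul, map_mul, hp, map_mul, map_mul]
    simp [shiftP]

lemma coeff_shiftP_sum {R : Type*} [CommRing R] (p : Fin 3 → R) (d : ℕ)
    (c : ↥(finsuppAntidiag (univ : Finset (Fin 3)) d) → R) (e : Fin 3 →₀ ℕ) :
    coeff e (shiftP p (∑ m, monomial m.1 (c m))) =
      ∑ m, coeff e (shiftP p (monomial m.1 1)) * c m := by
  rw [map_sum, coeff_sum]
  refine sum_congr rfl fun m _ => ?_
  rw [show monomial m.1 (c m) = c m • monomial m.1 (1 : R) by simp [smul_monomial], map_smul,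
    coeff_smul, smul_eq_mul, mul_comm]

lemma sum_hom {R : Type*} [CommRing R] (d : ℕ)
    (c : ↥(finsuppAntidiag (univ : Finset (Fin 3)) d) → R) :
    (∑ m, monomial m.1 (c m) : MvPolynomial (Fin 3) R).IsHomogeneous d := by
  refine IsHomogeneous.sum _ _ _ fun m _ => isHomogeneous_monomial _ ?_
  rw [Finsupp.degree_eq_sum]
  exact (mem_finsuppAntidiag.1 m.2).1

lemma coeff_sum_mon {R : Type*} [CommRing R] (d : ℕ)
    (c : ↥(finsuppAntidiag (univ : Finset (Fin 3)) d) → R) (m) :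
    coeff m.1 (∑ m, monomial m.1 (c m) : MvPolynomial (Fin 3) R) = c m := by
  rw [coeff_sum, sum_eq_single m]
  · simp
  · intro m' _ hne
    rw [coeff_monomial, if_neg fun h => hne (Subtype.ext h)]
  · simp

lemma hom_eq_sum {R : Type*} [CommRing R] {d : ℕ} {F : MvPolynomial (Fin 3) R}
    (hF : F.IsHomogeneous d) :
    F = ∑ m : ↥(finsuppAntidiag (univ : Finset (Fin 3)) d), monomial m.1 (coeff m.1 F) := by
  ext m
  by_cases hm : m ∈ finsuppAntidiag (univ : Finset (Fin 3)) d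
  · exact (coeff_sum_mon d (fun m => coeff m.1 F) ⟨m, hm⟩).symm
  · have : m.degree ≠ d := fun h => hm (by
      rw [mem_finsuppAntidiag, ← Finsupp.degree_eq_sum]; exact ⟨h, subset_univ _⟩)
    rw [hF.coeff_eq_zero this, (sum_hom d _).coeff_eq_zero this]

theorem general (k : Type*) [Field k] (n : ℕ) (hn : 0 < n) :
    ∃ Φ : MvPolynomial (Fin 10 × Fin 2) ℤ, map (Int.castRingHom k) Φ ≠ 0 ∧
      ∀ p : Fin 10 × Fin 2 → k, aeval p Φ ≠ 0 →
      ∀ F : MvPolynomial (Fin 3) k, F.IsHomogeneous (111 * n) →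
      (∀ i, shiftP ![p (i, 0), p (i, 1), 1] F ∈ idealOfVars (Fin 3) k ^ mu n i) → F = 0 := by
  classical
  obtain ⟨K, _, _, _, φ, hK⟩ := exists_field k
  have : Rich K := ⟨fun r hr => by
    obtain ⟨x, hx⟩ := hK r hr
    exact ⟨Units.mk0 x (by rintro rfl; simp at hx; linarith), hx⟩⟩
  obtain ⟨P, hP2, hP⟩ := special_field (K := K)
  let κ := ↥(finsuppAntidiag (univ : Finset (Fin 3)) (111 * n))
  let ι := Σ i : Fin 10, {e : Fin 3 →₀ ℕ // e.degree < mu n i}
  let A : ι → κ → MvPolynomial (Fin 10 × Fin 2) ℤ := fun ie m =>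
    coeff ie.2.1 (shiftP ![X (ie.1, 0), X (ie.1, 1), 1] (monomial m.1 1))
  have hA : ∀ {S : Type _} [CommRing S] (ψ : MvPolynomial (Fin 10 × Fin 2) ℤ →+* S) ie m,
      ψ (A ie m) = coeff ie.2.1
        (shiftP ![ψ (X (ie.1, 0)), ψ (X (ie.1, 1)), 1] (monomial m.1 1)) := by
    intro S _ ψ ie m
    rw [coeff_shiftP_map, map_monomial, map_one]
    congr 3
    ext l
    fin_cases l <;> simp
  let x0 : Fin 10 × Fin 2 → Polynomial K := fun ij => P ij.1 ij.2.castSucc
  let ψ0 : MvPolynomial (Fin 10 × Fin 2) ℤ →+* Polynomial K := eval₂Hom (Int.castRingHom _) x0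
  have hP' : ∀ i, ![ψ0 (X (i, 0)), ψ0 (X (i, 1)), 1] = P i := by
    intro i
    ext1 l
    fin_cases l
    · simp [ψ0, x0]
    · simp [ψ0, x0]
    · exact (hP2 i).symm
  obtain ⟨r, hr⟩ := exists_minor (fun ie m => ψ0 (A ie m)) fun c hc => by
    have h0 := hP n hn _ (sum_hom _ c) fun i => by
      rw [mem_pow_idealOfVars_iff']
      intro e he
      rw [coeff_shiftP_sum, ← hc ⟨i, e, he⟩]
      exact sum_congr rfl fun m _ => by rw [hA ψ0, hP']
    funext m
    rw [← coeff_sum_mon _ c m, h0, coeff_zero, Pi.zero_apply]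
  refine ⟨(Matrix.of fun i j => A (r i) j).det, fun h => hr ?_, fun p hp F hF hm => ?_⟩
  · have h1 := ψ0.map_det (Matrix.of fun i j => A (r i) j)
    have h2 : ψ0 = (eval₂Hom (Polynomial.C.comp φ) x0).comp (map (Int.castRingHom k)) := by
      ext <;> simp [ψ0]
    rw [h2, RingHom.comp_apply, h, map_zero, ← h2] at h1
    exact h1.symm
  · let ψ := (aeval p : MvPolynomial (Fin 10 × Fin 2) ℤ →ₐ[ℤ] k).toRingHom
    have h1 : (ψ.mapMatrix (Matrix.of fun i j => A (r i) j)).det ≠ 0 := by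
      rw [← ψ.map_det]; exact hp
    have h2 := Matrix.eq_zero_of_mulVec_eq_zero h1 (v := fun m : κ => coeff m.1 F) (by
      funext j
      have h3 := (mem_pow_idealOfVars_iff' _ _).1 (hm (r j).1) (r j).2.1 (r j).2.2
      rw [hom_eq_sum hF, coeff_shiftP_sum] at h3
      simp only [Matrix.mulVec, dotProduct, RingHom.mapMatrix_apply, Matrix.map_apply,
        Matrix.of_apply, Pi.zero_apply]
      rw [← h3]
      exact sum_congr rfl fun m _ => by rw [hA ψ]; simp [ψ])
    rw [hom_eq_sum hF]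
    exact sum_eq_zero fun m _ => by rw [congrFun h2 m]; simp

end Pool.Agent.P.MP_3285df_ag
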