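import Pool.Agent.P.MP_3285df_ag.Cubic
import Pool.Agent.P.MP_3285df_ag.Core2

/-! Letting the tenth point approach the cubic through the other nine. -/

namespace Pool.Agent.P.MP_3285df_ag

open MvPolynomial Finset

/-- translation of the origin to the point `p` -/
noncomputable def shiftP {R : Type*} [CommRing R] (p : Fin 3 → R) :
    MvPolynomial (Fin 3) R →ₐ[R] MvPolynomial (Fin 3) R := aeval fun l => X l + C (p l)

lemma eval₂_mem {R S : Type*} [CommRing R] [CommRing S] (φ : R →+* S) (p : Fin 3 → R)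
    (v : Fin 3 → S) (J : Ideal S) (hv : ∀ l, v l - φ (p l) ∈ J) (m : ℕ)
    (F : MvPolynomial (Fin 3) R) (hF : shiftP p F ∈ idealOfVars (Fin 3) R ^ m) :
    eval₂ φ v F ∈ J ^ m := by
  have h1 : eval₂ φ v F = eval₂Hom φ (fun l => v l - φ (p l)) (shiftP p F) := by
    clear hF
    induction F using MvPolynomial.induction_on with
    | C a => simp [shiftP]
    | add p r hp hr => simp [hp, hr]
    | mul_X r l hp =>
      rw [map_mul, map_mul, ← hp]
      simp [shiftP]
  have h2 := Ideal.mem_map_of_mem (eval₂Hom φ (fun l => v l - φ (p l))) hF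
  rw [Ideal.map_pow, ← h1] at h2
  refine Ideal.pow_right_mono ?_ m h2
  rw [Ideal.map_span, Ideal.span_le]
  rintro _ ⟨_, ⟨l, rfl⟩, rfl⟩
  simpa using hv l

/-- the coefficient of `s^k` -/
noncomputable def cf {K : Type*} [Field K] (k : ℕ) (F : MvPolynomial (Fin 3) (Polynomial K)) :
    MvPolynomial (Fin 3) K := ∑ m ∈ F.support, monomial m ((coeff m F).coeff k)

lemma coeff_cf {K : Type*} [Field K] (k : ℕ) (F : MvPolynomial (Fin 3) (Polynomial K))
    (m : Fin 3 →₀ ℕ) : coeff m (cf k F) = (coeff m F).coeff k := by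
  classical
  simp only [cf, coeff_sum, coeff_monomial, sum_ite_eq', mem_support_iff]
  split_ifs with h
  · rfl
  · rw [not_not.1 h]; simp

lemma cf_hom {K : Type*} [Field K] (k : ℕ) {F : MvPolynomial (Fin 3) (Polynomial K)} {d : ℕ}
    (hF : F.IsHomogeneous d) : (cf k F).IsHomogeneous d := by
  intro m hm
  apply hF
  intro h
  rw [coeff_cf, h] at hm
  simp at hm

/-- the substitution `τ ↦ τ s` -/
noncomputable def psi {A : Type*} [CommRing A] : Polynomial A →+* Polynomial (Polynomial A) :=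
  Polynomial.eval₂RingHom (Polynomial.C.comp Polynomial.C) (Polynomial.C Polynomial.X * Polynomial.X)

lemma psi_coeff {A : Type*} [CommRing A] (P : Polynomial A) (l : ℕ) :
    (psi P).coeff l = Polynomial.monomial l (P.coeff l) := by
  induction P using Polynomial.induction_on' with
  | add p r hp hr => simp [hp, hr]
  | monomial j a =>
    simp only [psi, Polynomial.coe_eval₂RingHom, Polynomial.eval₂_monomial, RingHom.comp_apply,
      mul_pow, ← Polynomial.C_pow, ← mul_assoc, ← Polynomial.C_mul, Polynomial.coeff_C_mul_X_pow,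
      Polynomial.coeff_monomial]
    by_cases h : l = j
    · subst h; simp [Polynomial.C_mul_X_pow_eq_monomial]
    · simp [h, Ne.symm h]

section generic

variable {K A : Type*} [Field K] [CommRing A] [Algebra K A]

/-- the chart `(x, τ) ↦ ι x + τ e₁` -/
noncomputable def chi (ι : Fin 3 → A) : MvPolynomial (Fin 3) K →ₐ[K] Polynomial A :=
  aeval fun l => Polynomial.C (ι l) + if l = 1 then Polynomial.X else 0

/-- the family of charts -/
noncomputable def Xi (ι : Fin 3 → A) (F : MvPolynomial (Fin 3) (Polynomial K)) :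
    Polynomial (Polynomial A) :=
  eval₂ (Polynomial.mapRingHom (algebraMap K (Polynomial A)))
    (fun l => psi (chi (K := K) ι (X l))) F

lemma Xi_coeff (ι : Fin 3 → A) (F : MvPolynomial (Fin 3) (Polynomial K)) (b l : ℕ) :
    ((Xi ι F).coeff b).coeff l = if l ≤ b then (chi ι (cf (b - l) F)).coeff l else 0 := by
  classical
  induction F using MvPolynomial.induction_on' with
  | add p r hp hr =>
    have : cf (b - l) (p + r) = cf (b - l) p + cf (b - l) r := by
      ext m; simp [coeff_cf]
    simp only [Xi, eval₂_add, Polynomial.coeff_add, this, map_add] at hp hr ⊢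
    rw [hp, hr]
    split_ifs <;> simp
  | monomial m a =>
    have h1 : cf (b - l) (monomial m a) = C (a.coeff (b - l)) * monomial m 1 := by
      ext m'
      rw [coeff_cf, C_mul_monomial, mul_one, coeff_monomial, coeff_monomial]
      split_ifs <;> simp
    have h2 : Xi ι (monomial m a) = Polynomial.mapRingHom (algebraMap K (Polynomial A)) a *
        psi (chi (K := K) ι (monomial m 1)) := by
      rw [Xi, eval₂_monomial, monomial_eq, C_1, one_mul, map_finsuppProd, map_finsuppProd]
      simp only [map_pow]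
    rw [h1, h2, Polynomial.coeff_mul, Polynomial.finsetSum_coeff]
    simp only [Polynomial.coe_mapRingHom, Polynomial.coeff_map, psi_coeff,
      Polynomial.algebraMap_apply, Polynomial.coeff_C_mul, Polynomial.coeff_monomial, map_mul,
      ← algebraMap_eq, AlgHom.commutes]
    split_ifs with h
    · rw [sum_eq_single (b - l, l)]
      · simp
      · rintro ⟨i, j⟩ hij hne
        rw [if_neg, mul_zero]
        rintro rfl
        apply hne
        have := HasAntidiagonal.mem_antidiagonal.1 hij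
        simp only at this ⊢
        congr 1; omega
      · intro h'
        exact absurd (HasAntidiagonal.mem_antidiagonal.2 (by simp only; omega)) h'
    · refine sum_eq_zero fun ij hij => ?_
      rw [if_neg, mul_zero]
      rintro rfl
      have := HasAntidiagonal.mem_antidiagonal.1 hij
      omega

/-- the ten points, the first one moving -/
noncomputable def pnt (v : Fin 10 → Fin 3 → K) (k : Fin 10) : Fin 3 → Polynomial K := fun l =>
  Polynomial.C (v k 2)⁻¹ * (Polynomial.C (v k l) + if l = 1 ∧ k = 0 then Polynomial.X else 0)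

lemma Xi_mem (ι : Fin 3 → A) (v : Fin 10 → Fin 3 → K) (k : Fin 10) (p : A)
    (hp : ∀ l, p ∣ ι l - algebraMap K A (v k l)) (hB : v k 2 ≠ 0)
    {F : MvPolynomial (Fin 3) (Polynomial K)} {d : ℕ} (hF : F.IsHomogeneous d) (m : ℕ)
    (h : shiftP (pnt v k) F ∈ idealOfVars (Fin 3) (Polynomial K) ^ m) (b : ℕ) :
    (Xi ι F).coeff b ∈ Ideal.span {Polynomial.C p,
      Polynomial.X - Polynomial.C (if k = 0 then 1 else 0)} ^ m := by
  set J : Ideal (Polynomial A) := Ideal.span {Polynomial.C p,
      Polynomial.X - Polynomial.C (if k = 0 then 1 else 0)} with hJ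
  set φ := Polynomial.mapRingHom (algebraMap K (Polynomial A)) with hφ
  have hj1 : Polynomial.C p ∈ J := Ideal.subset_span (by simp)
  have hj2 : Polynomial.X - Polynomial.C (if k = 0 then 1 else 0) ∈ J :=
    Ideal.subset_span (by simp)
  have h1 := eval₂_mem φ (pnt v k)
    (fun l => φ (Polynomial.C (v k 2)⁻¹) * psi (chi (K := K) ι (X l))) (J.map Polynomial.C)
    (fun l => by
      rw [pnt, map_mul, ← mul_sub]
      apply Ideal.mul_mem_left
      obtain ⟨w, hw⟩ := hp l
      have e : psi (chi (K := K) ι (X l)) - φ (Polynomial.C (v k l) +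
          if l = 1 ∧ k = 0 then Polynomial.X else 0) =
          Polynomial.C (Polynomial.C p * Polynomial.C w) + (if l = 1 then
            Polynomial.C (Polynomial.X - Polynomial.C (if k = 0 then 1 else 0)) * Polynomial.X
            else 0) := by
        rw [← Polynomial.C_mul, ← hw]
        by_cases hl : l = 1 <;> by_cases hk : k = 0 <;>
          simp [chi, psi, hφ, hl, hk, Polynomial.algebraMap_apply] <;> ring
      rw [e]
      refine Ideal.add_mem _ (Ideal.mem_map_of_mem _ (J.mul_mem_right _ hj1)) ?_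
      by_cases hl : l = 1
      · rw [if_pos hl]
        exact Ideal.mul_mem_right _ _ (Ideal.mem_map_of_mem _ hj2)
      · rw [if_neg hl]
        exact Ideal.zero_mem _) m F h
  rw [hom_eval₂ hF, ← Ideal.map_pow] at h1
  have h2 := Ideal.mul_mem_left _ (φ (Polynomial.C (v k 2)) ^ d) h1
  rw [← mul_assoc, ← mul_pow, ← map_mul, ← Polynomial.C_mul, mul_inv_cancel₀ hB,
    Polynomial.C_1, map_one, one_pow, one_mul] at h2
  exact Ideal.mem_map_C_iff.1 h2 b

end generic

variable {K : Type*} [NormedField K] [IsUltrametricDist K] [CompleteSpace K]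

namespace Emb

variable {q : Kˣ} (M : Emb q)

variable [Rich K]

lemma χ_inj (hq : ‖(q : K)‖ < 1) {g : MvPolynomial (Fin 3) K} (hg : g.IsHomogeneous 3)
    (hg0 : g ≠ 0) (hgι : aeval M.ι g = 0) (d : ℕ) : ∀ F : MvPolynomial (Fin 3) K,
    F.IsHomogeneous d → M.χ F = 0 → F = 0 := by
  induction d using Nat.strong_induction_on with
  | _ d ih =>
    intro F hF h
    have h0 : aeval M.ι F = 0 := by rw [← χ_coeff_zero, h]; simp
    by_cases hd3 : d < 3
    · exact M.small_eq_zero hq (e := d) (fun m hm => by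
        have := deg3 hF hm
        omega) h0
    obtain ⟨e, rfl⟩ : ∃ e, d = e + 3 := ⟨d - 3, by omega⟩
    obtain ⟨G, hG, rfl⟩ := M.cubic_dvd hq hg hg0 hgι hF h0
    rw [map_mul, mul_eq_zero] at h
    rcases h with h | h
    · exact absurd (by rw [← χ_coeff_zero, ← χ_deriv, h]; simp) (M.gamma_ne hq hg hg0 hgι)
    · rw [ih e (by omega) G hG h, mul_zero]

theorem special (hq : ‖(q : K)‖ < 1) (T : Th q) {g : MvPolynomial (Fin 3) K}
    (hg : g.IsHomogeneous 3) (hg0 : g ≠ 0) (hgι : aeval M.ι g = 0) (u : Fin 10 → Kˣ)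
    (hu1 : ∀ k, ‖(u k : K)‖ < 1) (hinj : Function.Injective fun k => ‖(u k : K)‖)
    (hκ : ‖(q : K)‖ < ‖((∏ k, u k : Kˣ) : K)‖ ^ 2)
    (hγ : ∀ k, (aeval M.ι (pderiv 1 g)).1 (u k) ≠ 0) (hB : ∀ k, (M.ι 2).1 (u k) ≠ 0)
    (hgen : ∀ (e : Fin 10 → ℤ) (N : ℤ),
      ∑ k, (e k : ℝ) * Real.log ‖(u k : K)‖ = N * Real.log ‖(q : K)‖ → e 1 = 0)
    (n : ℕ) (hn : 0 < n) (F : MvPolynomial (Fin 3) (Polynomial K))
    (hF : F.IsHomogeneous (111 * n))
    (h : ∀ k, shiftP (pnt (fun k l => (M.ι l).1 (u k)) k) F ∈ idealOfVars (Fin 3) (Polynomial K) ^ mu n k) : F = 0 := by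
  classical
  by_contra hF0
  have hex : ∃ b, ∃ l ≤ b, (M.χ (cf (b - l) F)).coeff l ≠ 0 := by
    obtain ⟨m, hm⟩ := ne_zero_iff.1 hF0
    obtain ⟨k, hk⟩ : ∃ k, (coeff m F).coeff k ≠ 0 := by
      by_contra hc
      push Not at hc
      exact hm (Polynomial.ext hc)
    have h1 : M.χ (cf k F) ≠ 0 := fun h1 => hk (by
      rw [← coeff_cf, M.χ_inj hq hg hg0 hgι _ _ (cf_hom k hF) h1, coeff_zero])
    obtain ⟨l, hl⟩ : ∃ l, (M.χ (cf k F)).coeff l ≠ 0 := by
      by_contra hc
      push Not at hc
      exact h1 (Polynomial.ext hc)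
    exact ⟨k + l, l, by omega, by simpa using hl⟩
  set b := Nat.find hex with hb
  have hform : ∀ l, ∃ f : O1 K, ((Xi M.ι F).coeff b).coeff l = aeval M.ι (pderiv 1 g) ^ l * f ∧
      ∀ x : Kˣ, f.1 (q * x) * (-(x : K)⁻¹ ^ 3) ^ (3 * l)
        = (-(x : K)⁻¹ ^ 3) ^ (111 * n) * f.1 x := by
    intro l
    have hc := Xi_coeff M.ι F b l
    by_cases hl : l ≤ b
    · rw [if_pos hl] at hc
      rw [hc]
      refine M.coeff_form hq hg hg0 hgι l _ _ (cf_hom _ hF) (Polynomial.X_pow_dvd_iff.2 ?_)
      intro l' hl'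
      by_contra hc
      exact Nat.find_min hex (m := b - l + l') (by omega) ⟨l', by omega, by simpa using hc⟩
    · rw [if_neg hl] at hc
      exact ⟨0, by rw [hc, mul_zero], fun x => by simp⟩
  choose f hf1 hf2 using hform
  refine Cfg.false_of_gen ⟨q, hq, T, u, hu1, hinj, hκ, _, hγ, n, (Xi M.ι F).coeff b, ?_, f, hf1, hf2,
    fun k => Xi_mem M.ι _ k _ (fun l => sub_ev (M.ι l) (u k)) (hB k) hF _ (h k) b⟩ hn hgen
  obtain ⟨l, hl, hl'⟩ := Nat.find_spec hex
  intro h0
  apply hl'
  have := Xi_coeff M.ι F b l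
  rw [if_pos hl, h0] at this
  exact this.symm

end Emb

end Pool.Agent.P.MP_3285df_ag
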