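import Pool.Agent.P.MP_3285df_ag.Zero

/-! The theta function of the Tate curve. -/

namespace Pool.Agent.P.MP_3285df_ag

open Filter Topology

variable {K : Type*} [NormedField K] [IsUltrametricDist K] [CompleteSpace K]

omit [CompleteSpace K] in
lemma norm_sub_l {a b : K} (h : ‖b‖ < ‖a‖) : ‖a - b‖ = ‖a‖ := by
  rw [sub_eq_add_neg, IsUltrametricDist.norm_add_eq_max_of_norm_ne_norm (by simpa using h.ne'),
    norm_neg, max_eq_left h.le]

omit [CompleteSpace K] in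
lemma norm_sub_r {a b : K} (h : ‖a‖ < ‖b‖) : ‖a - b‖ = ‖b‖ := by
  rw [norm_sub_rev, norm_sub_l h]

/-- a theta function for the period `q` -/
structure Th (q : Kˣ) where
  θ : O1 K
  θ1 : O1 K
  eq : θ = pt 1 * θ1
  shift : ∀ x : Kˣ, θ.1 (q * x) = -(x : K)⁻¹ * θ.1 x
  inv : ∀ x : Kˣ, θ.1 x⁻¹ = -(x : K)⁻¹ * θ.1 x
  ne : ∀ z : Kˣ, ‖(q : K)‖ < ‖(z : K)‖ → ‖(q : K)‖ * ‖(z : K)‖ < 1 → θ1.1 z ≠ 0

/-- the terms of the theta series -/
def tterm (q0 : Kˣ) (x : Kˣ) (n : ℤ) : K :=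
  (((-1) ^ n * q0 ^ (n * (n - 1)) * x ^ n : Kˣ) : K)

omit [IsUltrametricDist K] [CompleteSpace K] in
lemma norm_tterm (q0 x : Kˣ) (n : ℤ) :
    ‖tterm q0 x n‖ = ‖(q0 : K)‖ ^ (n * (n - 1)) * ‖(x : K)‖ ^ n := by
  simp [tterm, norm_zpow]

omit [IsUltrametricDist K] in
lemma summable_tterm (q0 : Kˣ) (hq : ‖(q0 : K)‖ < 1) (x : Kˣ) : Summable (tterm q0 x) := by
  have hQ := upos q0
  have hρ := upos x
  have hl : Real.log ‖(q0 : K)‖ < 0 := Real.log_neg hQ hq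
  set L := Real.log ‖(q0 : K)‖
  set M := Real.log ‖(x : K)‖
  have hT : 0 < -L / Real.pi := div_pos (by linarith) Real.pi_pos
  have hs := summable_pow_mul_jacobiTheta₂_term_bound (|M - L| / (2 * Real.pi)) hT 0
  refine Summable.of_norm_bounded hs fun n => ?_
  rw [norm_tterm, pow_zero, one_mul, ← Real.exp_log hQ, ← Real.exp_log hρ, ← Real.rpow_intCast,
    ← Real.rpow_intCast, ← Real.exp_mul, ← Real.exp_mul, ← Real.exp_add]
  apply Real.exp_le_exp.2
  have h1 : -Real.pi * (-L / Real.pi * (n : ℝ) ^ 2 - 2 * (|M - L| / (2 * Real.pi)) * ((|n| : ℤ) : ℝ))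
      = L * (n : ℝ) ^ 2 + |M - L| * |(n : ℝ)| := by
    have := Real.pi_pos.ne'
    push_cast
    field_simp
    ring
  rw [h1, ← abs_mul]
  have := le_abs_self ((M - L) * n)
  push_cast
  nlinarith

omit [IsUltrametricDist K] [CompleteSpace K] in
lemma tterm_shift (q0 x : Kˣ) (n : ℤ) :
    tterm q0 (q0 ^ 2 * x) n = -(x : K)⁻¹ * tterm q0 x (n + 1) := by
  have : ((-1 : Kˣ) ^ n * q0 ^ (n * (n - 1)) * (q0 ^ 2 * x) ^ n) =
      (-1) * x⁻¹ * ((-1) ^ (n + 1) * q0 ^ ((n + 1) * (n + 1 - 1)) * x ^ (n + 1)) := by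
    have h : (n + 1) * (n + 1 - 1) = n * (n - 1) + 2 * n := by ring
    rw [h, zpow_add q0, zpow_add_one, zpow_add_one, mul_zpow, zpow_mul q0 2 n, zpow_ofNat]
    ext
    simp only [Units.val_mul, Units.val_neg, Units.val_one, Units.val_inv_eq_inv_val]
    have := x.ne_zero
    field_simp
  simp only [tterm, this, Units.val_mul, Units.val_neg, Units.val_one, Units.val_inv_eq_inv_val]
  ring

omit [IsUltrametricDist K] [CompleteSpace K] in
lemma tterm_inv (q0 x : Kˣ) (n : ℤ) :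
    tterm q0 x⁻¹ n = -(x : K)⁻¹ * tterm q0 x (1 - n) := by
  have : ((-1 : Kˣ) ^ n * q0 ^ (n * (n - 1)) * (x⁻¹) ^ n) =
      (-1) * x⁻¹ * ((-1) ^ (1 - n) * q0 ^ ((1 - n) * (1 - n - 1)) * x ^ (1 - n)) := by
    have h : (1 - n) * (1 - n - 1) = n * (n - 1) := by ring
    have h2 : (-1 : Kˣ) ^ (1 - n) = -(-1) ^ n := by
      rw [zpow_sub, zpow_one, ← inv_zpow]
      simp
    rw [h, h2, zpow_sub x, zpow_one, inv_zpow]
    ext
    simp only [Units.val_mul, Units.val_neg, Units.val_one, Units.val_inv_eq_inv_val]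
    have := x.ne_zero
    field_simp
  simp only [tterm, this, Units.val_mul, Units.val_neg, Units.val_one, Units.val_inv_eq_inv_val]
  ring

variable [Rich K]

theorem exists_Th (q0 : Kˣ) (hq : ‖(q0 : K)‖ < 1) : Nonempty (Th (q0 ^ 2)) := by
  have hs := summable_tterm q0 hq
  have hQ0 := upos q0
  let θ : O1 K := ⟨fun x => ∑' n, tterm q0 x n,
    ⟨ℤ, fun n => (((-1) ^ n * q0 ^ (n * (n - 1)) : Kˣ) : K), fun n => (0, n), fun p => by
      refine (hs p.2).hasSum.congr_fun fun n => ?_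
      simp [tterm, mono]⟩⟩
  have hshift : ∀ x : Kˣ, θ.1 (q0 ^ 2 * x) = -(x : K)⁻¹ * θ.1 x := by
    intro x
    simp only [θ, tterm_shift, tsum_mul_left]
    rw [← (Equiv.addRight 1).tsum_eq (tterm q0 x)]
    rfl
  have hinv : ∀ x : Kˣ, θ.1 x⁻¹ = -(x : K)⁻¹ * θ.1 x := by
    intro x
    simp only [θ, tterm_inv, tsum_mul_left]
    rw [← (Equiv.subLeft 1).tsum_eq (tterm q0 x)]
    rfl
  have h1 : θ.1 1 = 0 := by
    have hg : Summable (fun n : ℤ => tterm q0 1 (n + 1)) :=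
      (hs 1).comp_injective (add_left_injective (1 : ℤ))
    have ha := (hg.comp_injective (Nat.cast_injective (R := ℤ))).hasSum
    have hb : HasSum (fun n : ℕ => tterm q0 1 (-((n : ℤ) + 1) + 1))
        (-∑' n : ℕ, ((fun n : ℤ => tterm q0 1 (n + 1)) ∘ Nat.cast) n) := by
      refine ha.neg.congr_fun fun n => ?_
      have := tterm_inv q0 1 (-((n : ℤ) + 1) + 1)
      rw [inv_one] at this
      rw [this]
      simp only [Units.val_one, inv_one, Function.comp]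
      rw [neg_one_mul]
      congr 2
      ring
    have hc := HasSum.of_nat_of_neg_add_one (f := fun n : ℤ => tterm q0 1 (n + 1)) ha hb
    rw [add_neg_cancel] at hc
    simp only [θ]
    rw [← (Equiv.addRight 1).tsum_eq (tterm q0 1)]
    exact hc.tsum_eq
  have hne : θ ≠ 0 := by
    intro h0
    have h2 : θ.1 q0 = 0 := by rw [h0]; rfl
    simp only [θ] at h2
    rw [(hs q0).tsum_eq_add_tsum_ite 0] at h2
    have h3 : ‖∑' n : ℤ, if n = 0 then 0 else tterm q0 q0 n‖ ≤ ‖(q0 : K)‖ := by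
      refine IsUltrametricDist.norm_tsum_le_of_forall_le fun n => ?_
      split_ifs with hn
      · simp
      · rw [norm_tterm, ← zpow_add₀ hQ0.ne']
        nth_rewrite 2 [← zpow_one ‖(q0 : K)‖]
        rw [zpow_le_zpow_iff_right_of_lt_one₀ hQ0 hq]
        have : 0 < n * n := mul_self_pos.2 hn
        linarith
    rw [← neg_eq_of_add_eq_zero_right h2, norm_neg, norm_tterm] at h3
    simp at h3
    linarith
  obtain ⟨θ1, hθ1⟩ := pt_dvd θ 1 h1
  refine ⟨⟨θ, θ1, hθ1, hshift, hinv, fun z hz1 hz2 hz => ?_⟩⟩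
  set q : Kˣ := q0 ^ 2 with hqdef
  have hQ := upos q
  have hQ1 : ‖(q : K)‖ < 1 := by
    rw [hqdef, Units.val_pow_eq_pow_val, norm_pow]
    exact pow_lt_one₀ hQ0.le hq two_ne_zero
  have hzp := upos z
  obtain ⟨θ2, hθ2⟩ := pt_dvd θ1 z hz
  have hne2 : θ2 ≠ 0 := by
    rintro rfl
    apply hne
    rw [hθ1, hθ2]; simp
  have hlt : max 1 ‖(z : K)‖ < min 1 ‖(z : K)‖ / ‖(q : K)‖ := by
    rw [lt_div_iff₀ hQ, lt_min_iff]
    rcases le_total 1 ‖(z : K)‖ with h | h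
    · rw [max_eq_right h]; constructor <;> nlinarith
    · rw [max_eq_left h]; constructor <;> nlinarith
  have := (zcore θ2 hne2 q hQ1 (by positivity) hlt ‖(z : K)‖⁻¹ 1 fun x hx1 hx2 => ?_).1
  · omega
  rw [max_lt_iff] at hx1
  rw [lt_div_iff₀ hQ, lt_min_iff] at hx2
  have e1 := congrArg norm (hshift x)
  rw [hθ1, hθ2] at e1
  simp only [MulMemClass.coe_mul, Pi.mul_apply, pt_apply, norm_mul, norm_neg, norm_inv] at e1
  have hqx : ‖((q * x : Kˣ) : K)‖ = ‖(x : K)‖ * ‖(q : K)‖ := by simp [mul_comm]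
  rw [norm_sub_r (a := ((q * x : Kˣ) : K)) (by rw [hqx]; simpa using hx2.1),
    norm_sub_r (a := ((q * x : Kˣ) : K)) (by rw [hqx]; exact hx2.2),
    norm_sub_l (a := (x : K)) (by simpa using hx1.1), norm_sub_l (a := (x : K)) hx1.2] at e1
  have hx := upos x
  simp only [Units.val_one, norm_one, one_mul] at e1
  rw [zpow_one]
  field_simp at e1 ⊢
  linarith

omit [CompleteSpace K] [Rich K] in
lemma Th.one {q : Kˣ} (T : Th q) : T.θ.1 1 = 0 := by rw [T.eq]; simp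

omit [CompleteSpace K] [Rich K] in
lemma Th.ne' {q : Kˣ} (T : Th q) (z : Kˣ) (h1 : ‖(q : K)‖ < ‖(z : K)‖)
    (h2 : ‖(q : K)‖ * ‖(z : K)‖ < 1) (h3 : ‖(z : K)‖ ≠ 1) : T.θ.1 z ≠ 0 := by
  rw [T.eq]
  simp only [MulMemClass.coe_mul, Pi.mul_apply, pt_apply]
  refine mul_ne_zero (sub_ne_zero.2 fun h => h3 ?_) (T.ne z h1 h2)
  rw [h]; simp

end Pool.Agent.P.MP_3285df_ag
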