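import Pool.Agent.P.MP_3285df_ag.Ent

/-! Counting zeros of entire functions with a functional equation; divisibility. -/

namespace Pool.Agent.P.MP_3285df_ag

open Filter Topology

/-- every positive real number is a norm -/
class Rich (K : Type*) [NormedField K] : Prop where
  ex : ∀ r : ℝ, 0 < r → ∃ x : Kˣ, ‖(x : K)‖ = r

variable {K : Type*} [NormedField K] [IsUltrametricDist K] [CompleteSpace K]

lemma exists_avoid {B : Set ℝ} (hB : B.Countable) {lo hi : ℝ} (h : lo < hi) :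
    ∃ ρ, lo < ρ ∧ ρ < hi ∧ ρ ∉ B := by
  obtain ⟨ρ, h1, h2⟩ := (hB.dense_compl ℝ).exists_mem_open isOpen_Ioo (Set.nonempty_Ioo.2 h)
  exact ⟨ρ, h2.1, h2.2, h1⟩

lemma rad_countable (c : ℝ) (j : ℤ) : {ρ : ℝ | 0 < ρ ∧ j ≠ 0 ∧ ρ ^ j = c}.Countable := by
  apply Set.Subsingleton.countable
  rintro a ⟨ha, hj, ha'⟩ b ⟨hb, -, hb'⟩
  exact zpow_left_injOn₀ hj ha.le hb.le (ha'.trans hb'.symm)

omit [IsUltrametricDist K] [CompleteSpace K] in
lemma upos (x : Kˣ) : 0 < ‖(x : K)‖ := norm_pos_iff.2 x.ne_zero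

lemma collect (f : O1 K) : ∃ a : ℤ → K, ∀ x : Kˣ, HasSum (fun n => a n * (x : K) ^ n) (f.1 x) := by
  obtain ⟨ι, b, e, h⟩ := f.2
  have hb : Summable b := by simpa [mono] using (h (1, 1)).summable
  refine ⟨fun n => ∑' i : {i // (e i).2 = n}, b i, fun x => ?_⟩
  have h1 : HasSum (fun i => b i * (x : K) ^ (e i).2) (f.1 x) := by simpa [mono] using h (1, x)
  have h2 := (Equiv.sigmaFiberEquiv (fun i => (e i).2)).hasSum_iff.2 h1
  refine h2.sigma fun n => ?_
  have : HasSum (fun i : {i // (e i).2 = n} => b i * (x : K) ^ n)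
      ((∑' i : {i // (e i).2 = n}, b i) * (x : K) ^ n) :=
    (hb.subtype {i | (e i).2 = n}).hasSum.mul_right ((x : K) ^ n)
  refine this.congr_fun fun i => ?_
  obtain ⟨i, rfl⟩ := i
  rfl

lemma exists_max (t : ℤ → ℝ) (h0 : ∀ n, 0 ≤ t n) (ht : Tendsto t cofinite (𝓝 0)) :
    ∃ N, ∀ n, t n ≤ t N := by
  by_cases hz : ∀ n, t n = 0
  · exact ⟨0, fun n => by rw [hz, hz]⟩
  push Not at hz
  obtain ⟨n0, hn0⟩ := hz
  have hp : 0 < t n0 := lt_of_le_of_ne (h0 n0) (Ne.symm hn0)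
  have hfin : {n | t n0 ≤ t n}.Finite := by
    have := ht.eventually (gt_mem_nhds hp)
    rw [eventually_cofinite] at this
    simpa using this
  obtain ⟨N, hN, hmax⟩ := Set.exists_max_image _ t hfin ⟨n0, le_refl (t n0)⟩
  refine ⟨N, fun n => ?_⟩
  by_cases hn : t n0 ≤ t n
  · exact hmax n hn
  · exact (le_of_lt (not_le.1 hn)).trans hN

theorem good (f : O1 K) (hf : f ≠ 0) : ∃ (A : ℤ → ℝ) (B : Set ℝ), B.Countable ∧
    ∀ x : Kˣ, ‖(x : K)‖ ∉ B → ∃ N, 0 < A N ∧ ‖f.1 x‖ = A N * ‖(x : K)‖ ^ N ∧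
      ∀ n, A n * ‖(x : K)‖ ^ n ≤ A N * ‖(x : K)‖ ^ N := by
  obtain ⟨a, ha⟩ := collect f
  have hne : ∃ n0, a n0 ≠ 0 := by
    by_contra hc
    push Not at hc
    apply hf
    ext x
    have := ha x
    simp only [hc, zero_mul] at this
    exact this.unique hasSum_zero
  obtain ⟨n0, hn0⟩ := hne
  refine ⟨fun n => ‖a n‖,
    ⋃ m : ℤ, ⋃ n : ℤ, {ρ : ℝ | 0 < ρ ∧ m - n ≠ 0 ∧ ρ ^ (m - n) = ‖a n‖ / ‖a m‖},
    Set.countable_iUnion fun m => Set.countable_iUnion fun n => rad_countable _ _,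
    fun x hx => ?_⟩
  have hρ := upos x
  have ht : Tendsto (fun n => ‖a n * (x : K) ^ n‖) cofinite (𝓝 0) := by
    simpa using (ha x).summable.tendsto_cofinite_zero.norm
  obtain ⟨N, hN⟩ := exists_max _ (fun _ => norm_nonneg _) ht
  have hpos : 0 < ‖a N * (x : K) ^ N‖ :=
    lt_of_lt_of_le (norm_pos_iff.2 (mul_ne_zero hn0 (zpow_ne_zero _ x.ne_zero))) (hN n0)
  have haN : 0 < ‖a N‖ := norm_pos_iff.2 (left_ne_zero_of_mul (norm_pos_iff.1 hpos))
  refine ⟨N, haN, ?_, fun n => by simpa [norm_mul, norm_zpow] using hN n⟩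
  have hlt : ∀ n, n ≠ N → ‖a n * (x : K) ^ n‖ < ‖a N * (x : K) ^ N‖ := by
    intro n hn
    refine lt_of_le_of_ne (hN n) fun he => hx ?_
    simp only [Set.mem_iUnion]
    refine ⟨N, n, hρ, sub_ne_zero.2 hn.symm, ?_⟩
    simp only [norm_mul, norm_zpow] at he
    rw [zpow_sub₀ hρ.ne', div_eq_div_iff (zpow_pos hρ _).ne' haN.ne']
    linarith
  let g : ℤ → K := fun n => if n = N then 0 else a n * (x : K) ^ n
  have hg : Tendsto (fun n => ‖g n‖) cofinite (𝓝 0) := by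
    refine squeeze_zero (fun _ => norm_nonneg _) (fun n => ?_) ht
    simp only [g]; split_ifs
    · simp; positivity
    · exact le_rfl
  obtain ⟨N', hN'⟩ := exists_max _ (fun _ => norm_nonneg _) hg
  have hgl : ‖g N'‖ < ‖a N * (x : K) ^ N‖ := by
    simp only [g]; split_ifs with h
    · simpa using hpos
    · exact hlt _ h
  have hs : ‖∑' n, g n‖ < ‖a N * (x : K) ^ N‖ :=
    lt_of_le_of_lt (IsUltrametricDist.norm_tsum_le_of_forall_le hN') hgl
  rw [← (ha x).tsum_eq, (ha x).summable.tsum_eq_add_tsum_ite N,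
    IsUltrametricDist.norm_add_eq_max_of_norm_ne_norm hs.ne', max_eq_left hs.le, norm_mul,
    norm_zpow]

theorem good_ne (f : O1 K) (hf : f ≠ 0) : ∃ B : Set ℝ, B.Countable ∧
    ∀ x : Kˣ, ‖(x : K)‖ ∉ B → f.1 x ≠ 0 := by
  obtain ⟨A, B, hB, h⟩ := good f hf
  refine ⟨B, hB, fun x hx => ?_⟩
  obtain ⟨N, h1, h2, -⟩ := h x hx
  rw [← norm_pos_iff, h2]
  exact mul_pos h1 (zpow_pos (upos x) _)

variable [Rich K]

instance : IsDomain (O1 K) := by
  have : NoZeroDivisors (O1 K) := ⟨fun {f g} hfg => by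
    by_contra hc
    push Not at hc
    obtain ⟨B, hB, h⟩ := good_ne f hc.1
    obtain ⟨B', hB', h'⟩ := good_ne g hc.2
    obtain ⟨ρ, h1, -, h2⟩ := exists_avoid (hB.union hB') (zero_lt_one' ℝ)
    obtain ⟨x, rfl⟩ := Rich.ex (K := K) ρ h1
    have : (f * g).1 x = 0 := by rw [hfg]; rfl
    exact mul_ne_zero (h x fun hx => h2 (Or.inl hx)) (h' x fun hx => h2 (Or.inr hx)) this⟩
  exact NoZeroDivisors.to_isDomain _

instance : IsDomain (O2 K) := by
  have : NoZeroDivisors (O2 K) := ⟨fun {F G} hFG => by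
    by_cases hF : F = 0
    · exact Or.inl hF
    right
    have : ∃ p, F.1 p ≠ 0 := by
      by_contra hc
      push Not at hc
      exact hF (Subtype.ext (funext hc))
    obtain ⟨⟨x0, y0⟩, hp⟩ := this
    have h1 : ∀ x, F.1 (x, y0) ≠ 0 → ∀ y, G.1 (x, y) = 0 := by
      intro x hx y
      have h := congrArg (res x 1 0 1) hFG
      rw [map_mul, map_zero, mul_eq_zero] at h
      rcases h with h | h
      · exact absurd (by simpa using congrFun (congrArg Subtype.val h) y0) hx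
      · simpa using congrFun (congrArg Subtype.val h) y
    ext ⟨x, y⟩
    have h : res 1 y0 1 0 F * res 1 y 1 0 G = 0 := by
      ext z
      by_cases hz : F.1 (z, y0) = 0
      · simp [hz]
      · simp [h1 z hz y]
    rcases mul_eq_zero.1 h with h | h
    · exact absurd (by simpa using congrFun (congrArg Subtype.val h) x0) hp
    · simpa using congrFun (congrArg Subtype.val h) x⟩
  exact NoZeroDivisors.to_isDomain _

/-- The zero count, together with the tropical Abel relation. -/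
theorem zcore (f : O1 K) (hf : f ≠ 0) (q : Kˣ) (hq : ‖(q : K)‖ < 1) {lo hi : ℝ} (h0 : 0 ≤ lo)
    (hlt : lo < hi) (C : ℝ) (j : ℤ)
    (h : ∀ x : Kˣ, lo < ‖(x : K)‖ → ‖(x : K)‖ < hi →
      ‖f.1 (q * x)‖ = C * ‖(x : K)‖ ^ j * ‖f.1 x‖) :
    j ≤ 0 ∧ (j = 0 → ∃ N : ℤ, C = ‖(q : K)‖ ^ N) := by
  obtain ⟨A, B, hB, hg⟩ := good f hf
  have hQ := upos q
  have hB2 : ((fun ρ => ‖(q : K)‖ * ρ) ⁻¹' B).Countable :=
    hB.preimage (mul_right_injective₀ hQ.ne')
  have hB3 : (⋃ N : ℤ, ⋃ N' : ℤ, {ρ : ℝ | 0 < ρ ∧ N' - N - j ≠ 0 ∧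
      ρ ^ (N' - N - j) = C * A N / (A N' * ‖(q : K)‖ ^ N')}).Countable :=
    Set.countable_iUnion fun m => Set.countable_iUnion fun n => rad_countable _ _
  obtain ⟨ρ, h1, h2, h3⟩ := exists_avoid ((hB.union hB2).union hB3) hlt
  have hρ : 0 < ρ := lt_of_le_of_lt h0 h1
  obtain ⟨x, rfl⟩ := Rich.ex (K := K) ρ hρ
  simp only [Set.mem_union, not_or, Set.mem_preimage] at h3
  obtain ⟨⟨h3, h4⟩, h5⟩ := h3
  obtain ⟨N, a1, a2, a3⟩ := hg x h3
  have hqx : ‖((q * x : Kˣ) : K)‖ = ‖(q : K)‖ * ‖(x : K)‖ := by simp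
  obtain ⟨N', b1, b2, b3⟩ := hg (q * x) (by rwa [hqx])
  rw [hqx] at b2 b3
  have he := h x h1 h2
  rw [a2, b2, mul_zpow] at he
  set ρ := ‖(x : K)‖
  set Q := ‖(q : K)‖
  have hQN' : 0 < Q ^ N' := zpow_pos hQ _
  have hexp : N' - N - j = 0 := by
    by_contra hne
    apply h5
    simp only [Set.mem_iUnion]
    refine ⟨N, N', hρ, hne, ?_⟩
    rw [zpow_sub₀ hρ.ne', zpow_sub₀ hρ.ne', div_div, div_eq_div_iff (by positivity) (by positivity)]
    linarith
  have hle : N' ≤ N := by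
    have c1 := a3 N'
    have c2 := b3 N
    rw [mul_zpow, mul_zpow] at c2
    have p1 : 0 < ρ ^ N := zpow_pos hρ _
    have p2 : 0 < ρ ^ N' := zpow_pos hρ _
    have c3 : Q ^ N * (A N * ρ ^ N) ≤ Q ^ N' * (A N * ρ ^ N) := by
      have := mul_le_mul_of_nonneg_left c1 hQN'.le
      linarith
    have c4 : Q ^ N ≤ Q ^ N' := le_of_mul_le_mul_right c3 (by positivity)
    exact (zpow_le_zpow_iff_right_of_lt_one₀ hQ hq).1 c4
  refine ⟨by omega, fun hj => ⟨N, ?_⟩⟩
  have hNN : N' = N := by omega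
  subst hNN
  rw [hj, zpow_zero] at he
  have p1 : 0 < A N' * ρ ^ N' := mul_pos a1 (zpow_pos hρ _)
  apply mul_right_cancel₀ p1.ne'
  linarith

/-- the equation `Y - c X^a` -/
noncomputable def lin (c : Kˣ) (a : ℤ) : O2 K := mon 0 1 - algebraMap K _ (c : K) * mon a 0

omit [CompleteSpace K] [Rich K] in
@[simp] lemma lin_apply (c : Kˣ) (a : ℤ) (p : Kˣ × Kˣ) :
    (lin c a).1 p = (p.2 : K) - c * (p.1 : K) ^ a := by
  simp [lin]

omit [Rich K] in
lemma lin_dvd_iff (c : Kˣ) (a : ℤ) (F : O2 K) : lin c a ∣ F ↔ res 1 c 1 a F = 0 := by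
  constructor
  · rintro ⟨G, rfl⟩
    ext x
    simp
  · intro h
    obtain ⟨G, hG, h2⟩ := IsEnt.div F.2 c a
    refine ⟨⟨G, hG⟩, ?_⟩
    ext p
    have h3 : F.1 (p.1, c * p.1 ^ a) = 0 := by
      simpa using congrFun (congrArg Subtype.val h) p.1
    have := h2 p
    rw [h3, sub_zero] at this
    simpa using this

omit [Rich K] [CompleteSpace K] in
lemma lin_ne_zero (c : Kˣ) (a : ℤ) (q : Kˣ) (hq : ‖(q : K)‖ < 1) : (lin c a : O2 K) ≠ 0 := by
  intro h
  have := congrFun (congrArg Subtype.val h) (1, q * c)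
  simp only [lin_apply, Units.val_mul, Units.val_one, one_zpow, mul_one, ZeroMemClass.coe_zero,
    Pi.zero_apply, sub_eq_zero] at this
  have h2 : (q : K) = 1 := by
    apply mul_right_cancel₀ c.ne_zero; rw [this, one_mul]
  simp [h2] at hq

lemma prime_lin (c : Kˣ) (a : ℤ) (q : Kˣ) (hq : ‖(q : K)‖ < 1) : Prime (lin c a : O2 K) := by
  rw [← Ideal.span_singleton_prime (lin_ne_zero c a q hq)]
  have : Ideal.span {lin c a} = RingHom.ker (res 1 c 1 a : O2 K →ₐ[K] O1 K) := by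
    ext F
    rw [Ideal.mem_span_singleton, lin_dvd_iff, RingHom.mem_ker]
  rw [this]
  exact RingHom.ker_isPrime _

/-- the equation `x - z` -/
noncomputable def pt (z : Kˣ) : O1 K := xp 1 - algebraMap K _ (z : K)

omit [CompleteSpace K] [Rich K] in
@[simp] lemma pt_apply (z x : Kˣ) : (pt z).1 x = (x : K) - z := by simp [pt]

omit [Rich K] in
lemma sub_ev (f : O1 K) (z : Kˣ) : pt z ∣ f - algebraMap K _ (f.1 z) := by
  have h : lin z 0 ∣ inc 1 0 1 (f - algebraMap K _ (f.1 z)) := by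
    rw [lin_dvd_iff]; ext x; simp
  obtain ⟨G, hG⟩ := h
  refine ⟨res 1 1 0 1 G, ?_⟩
  ext x
  simpa using congrFun (congrArg Subtype.val hG) (1, x)

omit [Rich K] in
lemma pt_dvd (f : O1 K) (z : Kˣ) (h : f.1 z = 0) : pt z ∣ f := by
  simpa [h] using sub_ev f z

omit [Rich K] in
lemma coprime_pt (f : O1 K) (z : Kˣ) (h : f.1 z ≠ 0) : IsCoprime (pt z) f := by
  obtain ⟨g, hg⟩ := sub_ev f z
  refine ⟨-(algebraMap K _ (f.1 z)⁻¹ * g), algebraMap K _ (f.1 z)⁻¹, ?_⟩
  have : algebraMap K (O1 K) (f.1 z)⁻¹ * algebraMap K _ (f.1 z) = 1 := by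
    rw [← map_mul, inv_mul_cancel₀ h, map_one]
  rw [← this]
  linear_combination (algebraMap K (O1 K) (f.1 z)⁻¹) * hg

section colon

variable {R S : Type*} [CommRing R] [CommRing S]

lemma pow_span_le (x y : R) (s : ℕ) : Ideal.span {x, y} ^ (s + 1) ≤
    Ideal.span {x ^ (s + 1)} ⊔ Ideal.span {y} * Ideal.span {x, y} ^ s := by
  have hx : x ∈ Ideal.span {x, y} := Ideal.subset_span (by simp)
  have hy : y ∈ Ideal.span {x, y} := Ideal.subset_span (by simp)
  induction s with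
  | zero => simp [Ideal.span_insert]
  | succ s ih =>
    rw [pow_succ]
    refine (Ideal.mul_mono_left ih).trans ?_
    rw [Ideal.sup_mul]
    apply sup_le
    · nth_rewrite 1 [Ideal.span_insert]
      rw [Ideal.mul_sup, Ideal.span_singleton_mul_span_singleton, ← pow_succ]
      apply sup_le_sup_left
      rw [mul_comm]
      apply Ideal.mul_mono_right
      rw [Ideal.span_singleton_le_iff_mem]
      exact Ideal.pow_mem_pow hx _
    · rw [mul_assoc, ← pow_succ]
      exact le_sup_right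

lemma colon [IsDomain R] [IsDomain S] (φ : R →+* S) (x y : R) (hy : y ≠ 0)
    (hker : ∀ c, φ c = 0 ↔ y ∣ c) (hx : φ x ≠ 0) (β s : ℕ) (H : R)
    (h : y ^ β * H ∈ Ideal.span {x, y} ^ s) : φ x ^ (s - β) ∣ φ H := by
  have hx' : x ∈ Ideal.span {x, y} := Ideal.subset_span (by simp)
  have hφy : φ y = 0 := (hker y).2 dvd_rfl
  have key : H ∈ Ideal.span {x, y} ^ (s - β) := by
    induction β generalizing s with
    | zero => simpa using h
    | succ β ih =>
      rcases s with _ | s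
      · simp
      have h1 := pow_span_le x y s h
      rw [Submodule.mem_sup] at h1
      obtain ⟨u, hu, v, hv, huv⟩ := h1
      rw [Ideal.mem_span_singleton] at hu
      obtain ⟨c, rfl⟩ := hu
      rw [Ideal.mem_span_singleton_mul] at hv
      obtain ⟨G, hG, rfl⟩ := hv
      have h2 := congrArg φ huv
      simp only [map_add, map_mul, map_pow, hφy, zero_mul, add_zero, pow_succ, mul_zero] at h2
      have h3 : φ c = 0 := by
        rcases mul_eq_zero.1 h2 with h | h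
        · exact absurd h (mul_ne_zero (pow_ne_zero _ hx) hx)
        · exact h
      obtain ⟨c', rfl⟩ := (hker c).1 h3
      have h4 : y ^ β * H = x ^ (s + 1) * c' + G := by
        apply mul_left_cancel₀ hy
        rw [← mul_assoc, ← pow_succ', ← huv]; ring
      have h5 : y ^ β * H ∈ Ideal.span {x, y} ^ s := by
        rw [h4]
        refine Ideal.add_mem _ (Ideal.mul_mem_right _ _ ?_) hG
        rw [pow_succ]
        exact Ideal.mul_mem_right _ _ (Ideal.pow_mem_pow hx' _)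
      simpa using ih s h5
  have h6 := Ideal.mem_map_of_mem φ key
  rw [Ideal.map_pow, Ideal.map_span, Set.image_pair, hφy, Ideal.span_insert,
    Ideal.span_singleton_zero, sup_bot_eq, Ideal.span_singleton_pow,
    Ideal.mem_span_singleton] at h6
  exact h6

end colon

end Pool.Agent.P.MP_3285df_ag
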